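import Pool.Agent.H998.AS.Sharp2
set_option autoImplicit false
set_option linter.unusedSectionVars false

/-! The spectrum of a sum sentence is a finite union of additively closed sets. -/

namespace Pool.Agent.H998.AS
open FirstOrder

variable {L : FirstOrder.Language.{0, 0}} [L.IsRelational]

/-- a class of structures closed under disjoint unions -/
def ClsClosed (C : ∀ M : Type, L.Structure M → Prop) : Prop :=
  ∀ (M N : Type) [Finite M] [Finite N] (sM : L.Structure M) (sN : L.Structure N),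
    C M sM → C N sN → C (M ⊕ N) (sumStr sM sN)

theorem classes_of {φ : L.Sentence} (h : SumSentence φ) :
    ∃ (I : Type) (_ : Finite I) (C : I → ∀ M : Type, L.Structure M → Prop),
      (∀ i, ClsClosed (C i)) ∧ ∀ (M : Type) (s : L.Structure M),
        (@FirstOrder.Language.Sentence.Realize L M s φ ↔ ∃ i, C i M s) := by
  induction h with
  | @one φ h =>
    obtain ⟨k, θ, hl, P, hP⟩ := types_of h
    refine ⟨Set (Fin k), inferInstance,
      fun t M s => P t ∧ {j | ∃ a, HoldsAt s (θ j) a} = t, ?_, ?_⟩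
    · rintro t M N _ _ sM sN ⟨hPt, hM⟩ ⟨_, hN⟩
      refine ⟨hPt, ?_⟩
      rw [union_types θ hl, hM, hN, Set.union_self]
    · intro M s
      rw [hP M s]
      constructor
      · intro h; exact ⟨_, h, rfl⟩
      · rintro ⟨t, h, rfl⟩; exact h
  | @pres φ h =>
    refine ⟨Unit, inferInstance, fun _ M s => @FirstOrder.Language.Sentence.Realize L M s φ,
      fun _ => h, fun M s => ?_⟩
    simp
  | @inf φ ψ _ _ ih₁ ih₂ =>
    obtain ⟨I, _, C, hC, hφ⟩ := ih₁
    obtain ⟨J, _, D, hD, hψ⟩ := ih₂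
    refine ⟨I × J, inferInstance, fun p M s => C p.1 M s ∧ D p.2 M s, ?_, ?_⟩
    · rintro ⟨i, j⟩ M N _ _ sM sN ⟨h1, h2⟩ ⟨h3, h4⟩
      exact ⟨hC i M N sM sN h1 h3, hD j M N sM sN h2 h4⟩
    · intro M s
      rw [realize_inf', hφ, hψ]
      constructor
      · rintro ⟨⟨i, hi⟩, ⟨j, hj⟩⟩; exact ⟨(i, j), hi, hj⟩
      · rintro ⟨⟨i, j⟩, hi, hj⟩; exact ⟨⟨i, hi⟩, ⟨j, hj⟩⟩
  | @sup φ ψ _ _ ih₁ ih₂ =>
    obtain ⟨I, _, C, hC, hφ⟩ := ih₁
    obtain ⟨J, _, D, hD, hψ⟩ := ih₂
    refine ⟨I ⊕ J, inferInstance, fun p => Sum.elim C D p, ?_, ?_⟩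
    · rintro (i | j)
      · exact hC i
      · exact hD j
    · intro M s
      have : @FirstOrder.Language.Sentence.Realize L M s (φ ⊔ ψ) ↔
          (@FirstOrder.Language.Sentence.Realize L M s φ ∨
            @FirstOrder.Language.Sentence.Realize L M s ψ) :=
        FirstOrder.Language.BoundedFormula.realize_sup
      rw [this, hφ, hψ]
      simp only [Sum.exists, Sum.elim_inl, Sum.elim_inr]

/-- The spectrum of a sum sentence is a finite union of additively closed sets. -/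
theorem spec_union' {φ : L.Sentence} (h : SumSentence φ) :
    ∃ (k : ℕ) (A : Fin k → Set ℕ), (∀ i, AddClosed (A i)) ∧ (∀ i, ∀ n ∈ A i, 0 < n) ∧
      spec φ = ⋃ i, A i := by
  classical
  obtain ⟨I, _, C, hC, hφ⟩ := classes_of h
  obtain ⟨K, ⟨e⟩⟩ := Finite.exists_equiv_fin I
  refine ⟨K, fun i => {n | 0 < n ∧ ∃ (M : Type) (s : L.Structure M),
    Nat.card M = n ∧ C (e.symm i) M s}, ?_, ?_, ?_⟩
  · rintro i m ⟨hm, M, sM, hcM, hM⟩ n ⟨hn, N, sN, hcN, hN⟩
    have fM : Finite M := Nat.finite_of_card_ne_zero (by omega)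
    have fN : Finite N := Nat.finite_of_card_ne_zero (by omega)
    refine ⟨by omega, M ⊕ N, sumStr sM sN, ?_, hC _ M N sM sN hM hN⟩
    rw [Nat.card_sum, hcM, hcN]
  · rintro i n ⟨hn, _⟩
    exact hn
  · ext n
    simp only [spec, Set.mem_ofPred_eq, Set.mem_iUnion]
    constructor
    · rintro ⟨hn, M, s, hc, hr⟩
      obtain ⟨i, hi⟩ := (hφ M s).1 hr
      refine ⟨e i, hn, M, s, hc, ?_⟩
      rw [Equiv.symm_apply_apply]
      exact hi
    · rintro ⟨i, hn, M, s, hc, hs⟩
      exact ⟨hn, M, s, hc, (hφ M s).2 ⟨_, hs⟩⟩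

/-- positive many-witness sentences are preserved under disjoint unions -/
theorem Guarded.sumPreserved_exs {m : ℕ} {θ : L.BoundedFormula Empty m} (h : Guarded θ) :
    SumPreserved θ.exs := by
  intro M N _ _ sM sN hM _
  have h1 : (default : Empty → M) = fun e => e.elim := by funext e; exact e.elim
  have h2 : (default : Empty → M ⊕ N) = fun e => e.elim := by funext e; exact e.elim
  unfold FirstOrder.Language.Sentence.Realize at hM ⊢
  rw [FirstOrder.Language.BoundedFormula.realize_exs] at hM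
  refine (@FirstOrder.Language.BoundedFormula.realize_exs L (M ⊕ N) (sumStr sM sN) _ _ _ _).2 ?_
  obtain ⟨xs, hxs⟩ := hM
  rw [h1] at hxs
  rw [h2]
  exact ⟨fun i => Sum.inl (xs i), (h.closedEmb (ClosedEmb.inl sM sN) xs).2 hxs⟩

end Pool.Agent.H998.AS
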