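import Pool.Agent.H998.AS.Conv2
import Pool.Agent.H998.AS.Tame
set_option autoImplicit false
set_option linter.unusedSectionVars false

/-! Any sentence that forces connectedness brings all spectra. -/

namespace Pool.Agent.H998.AS
open FirstOrder

variable {L : FirstOrder.Language.{0, 0}} [L.IsRelational]

/-- the relation `E` of an `Ex L`-structure -/
def eRel {M : Type} (s : (Ex L).Structure M) (x y : M) : Prop :=
  s.RelMap (n := 2) (ExRel.E (L := L)) ![x, y]

abbrev xE (L : FirstOrder.Language.{0, 0}) {n : ℕ} (i j : Fin n) : (Ex L).BoundedFormula Empty n :=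
  FirstOrder.Language.BoundedFormula.rel (L := Ex L) (n := n) (ExRel.E) ![vT L i, vT L j]

theorem rz_xE {M : Type} (s : (Ex L).Structure M) {n : ℕ} (i j : Fin n) (v : Fin n → M) :
    Rz s (xE L i j) v ↔ eRel s (v i) (v j) := by
  rw [Rz.rel]
  unfold eRel
  have : (fun k : Fin 2 => @FirstOrder.Language.Term.realize (Ex L) M s _
        (Sum.elim (fun e => Empty.elim e) v) ((![vT L i, vT L j] : Fin 2 → _) k)) = ![v i, v j] := by
    funext k
    fin_cases k
    · rfl
    · rfl
  rw [this]

/-- at `x`, the relation `E` looks like an equivalence relation -/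
def eqv (L : FirstOrder.Language.{0, 0}) : (Ex L).BoundedFormula Empty 1 :=
  an (xE L 0 0) (an
    (FirstOrder.Language.BoundedFormula.all (FirstOrder.Language.BoundedFormula.imp
      (xE L (0 : Fin 2) 1) (xE L 1 0)))
    (FirstOrder.Language.BoundedFormula.all (FirstOrder.Language.BoundedFormula.imp
      (xE L (0 : Fin 2) 1)
      (FirstOrder.Language.BoundedFormula.all (FirstOrder.Language.BoundedFormula.imp
        (xE L (1 : Fin 3) 2) (xE L 0 2))))))

theorem guarded_eqv : Guarded (eqv L) :=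
  guarded_an (Guarded.rel (Nat.succ_pos _) _ _) (guarded_an
    (Guarded.all (L := Ex L) (n := 1) ExRel.E _ ⟨1, rfl⟩ ⟨0, 0, rfl⟩
      (Guarded.rel (Nat.succ_pos _) _ _))
    (Guarded.all (L := Ex L) (n := 1) ExRel.E _ ⟨1, rfl⟩ ⟨0, 0, rfl⟩
      (Guarded.all (L := Ex L) (n := 2) ExRel.E _ ⟨1, rfl⟩ ⟨0, 1, rfl⟩
        (Guarded.rel (Nat.succ_pos _) _ _))))

theorem rz_eqv {M : Type} (s : (Ex L).Structure M) (x : M) :
    HoldsAt s (eqv L) x ↔ (eRel s x x ∧ (∀ y, eRel s x y → eRel s y x) ∧
      (∀ y, eRel s x y → ∀ z, eRel s y z → eRel s x z)) := by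
  show Rz s (eqv L) (fun _ => x) ↔ _
  unfold eqv
  rw [rz_an, rz_an]
  simp only [Rz.all, Rz.imp, rz_xE]
  exact Iff.rfl

/-- `∀ x, eqv(x) ∧ tr φ (x)` -/
def unq (φ : L.Sentence) : (Ex L).Sentence :=
  FirstOrder.Language.BoundedFormula.not (FirstOrder.Language.BoundedFormula.ex
    (FirstOrder.Language.BoundedFormula.not (an (eqv L) (tr φ))))

theorem unq_oneWitness (φ : L.Sentence) : OneWitness Guarded (unq φ) :=
  (OneWitness.ex _ (Guarded.imp (guarded_an guarded_eqv (guarded_tr φ)) Guarded.falsum)).not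

theorem realize_unq {M : Type} (s : (Ex L).Structure M) (φ : L.Sentence) :
    @FirstOrder.Language.Sentence.Realize (Ex L) M s (unq φ) ↔
      ∀ a, HoldsAt s (eqv L) a ∧ HoldsAt s (tr φ) a := by
  unfold unq
  rw [realize_not', realize_ex_iff]
  have : ∀ a, HoldsAt s (FirstOrder.Language.BoundedFormula.not (an (eqv L) (tr φ))) a ↔
      ¬ (HoldsAt s (eqv L) a ∧ HoldsAt s (tr φ) a) := by
    intro a
    have := rz_an s (eqv L) (tr φ) (fun _ => a)
    exact not_congr this
  simp only [this, not_exists, not_not]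

theorem spec_conn (φ : L.Sentence) (χ : (Ex L).Sentence)
    (h1 : ∀ (M : Type) [Finite M] [Nonempty M] (s : (Ex L).Structure M),
      (∀ x y, s.RelMap (n := 2) (ExRel.E (L := L)) ![x, y]) →
        @FirstOrder.Language.Sentence.Realize (Ex L) M s χ)
    (h2 : ∀ (M : Type) [Finite M] [Nonempty M] (s : (Ex L).Structure M),
      @FirstOrder.Language.Sentence.Realize (Ex L) M s χ →
        ∀ x y, Relation.EqvGen (fun x y => s.RelMap (n := 2) (ExRel.E (L := L)) ![x, y]) x y) :
    spec (χ ⊓ unq φ) = spec φ := by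
  ext n
  constructor
  · rintro ⟨hn, M, s, hc, hr⟩
    have fM : Finite M := Nat.finite_of_card_ne_zero (by omega)
    have nM : Nonempty M := by
      by_contra h
      rw [not_nonempty_iff] at h
      rw [Nat.card_of_isEmpty] at hc
      omega
    rw [realize_inf', realize_unq] at hr
    obtain ⟨hχ, hq⟩ := hr
    have hq1 : ∀ a, (eRel s a a ∧ (∀ y, eRel s a y → eRel s y a) ∧
      (∀ y, eRel s a y → ∀ z, eRel s y z → eRel s a z)) := fun a => (rz_eqv s a).1 (hq a).1
    have hall : ∀ x y, eRel s x y := by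
      intro x y
      have := h2 M s hχ x y
      induction this with
      | rel x y h => exact h
      | refl x => exact (hq1 x).1
      | symm x y _ ih => exact (hq1 x).2.1 y ih
      | trans x y z _ _ ih₁ ih₂ => exact (hq1 x).2.2 y ih₁ z ih₂
    obtain ⟨a⟩ := nM
    exact ⟨hn, M, seen s a, hc, (holdsAt_tr s a (hall a) φ).1 (hq a).2⟩
  · rintro ⟨hn, M, s, hc, hr⟩
    have fM : Finite M := Nat.finite_of_card_ne_zero (by omega)
    have nM : Nonempty M := by
      by_contra h
      rw [not_nonempty_iff] at h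
      rw [Nat.card_of_isEmpty] at hc
      omega
    obtain ⟨p⟩ := id nM
    refine ⟨hn, M, ext s p, hc, ?_⟩
    rw [realize_inf', realize_unq]
    refine ⟨h1 M (ext s p) (fun _ _ => trivial), fun a => ⟨?_, ?_⟩⟩
    · rw [rz_eqv]
      exact ⟨trivial, fun _ _ => trivial, fun _ _ _ _ => trivial⟩
    · rw [holdsAt_tr (ext s p) a (fun _ => trivial) φ, seen_ext]
      exact hr

end Pool.Agent.H998.AS
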