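import Pool.Agent.H998.AS.Sharp2
set_option autoImplicit false
set_option linter.unusedSectionVars false

/-! Every finite union of additively closed sets is the spectrum of a guarded sentence. -/

namespace Pool.Agent.H998.AS
open FirstOrder

inductive GRel : ℕ → Type
  | E : GRel 2

/-- the language with one binary relation symbol -/
@[reducible] def LG : FirstOrder.Language.{0, 0} := ⟨fun _ => Empty, GRel⟩

instance : LG.IsRelational := fun _ => inferInstanceAs (IsEmpty Empty)

/-- disjunction of a list -/
def orL {L : FirstOrder.Language.{0, 0}} {n : ℕ} : List (L.BoundedFormula Empty n) → L.BoundedFormula Empty n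
  | [] => FirstOrder.Language.BoundedFormula.falsum
  | φ :: l => FirstOrder.Language.BoundedFormula.imp
      (FirstOrder.Language.BoundedFormula.imp φ FirstOrder.Language.BoundedFormula.falsum) (orL l)

theorem guarded_orL {L : FirstOrder.Language.{0, 0}} {n : ℕ} (l : List (L.BoundedFormula Empty n))
    (h : ∀ φ ∈ l, Guarded φ) : Guarded (orL l) := by
  induction l with
  | nil => exact Guarded.falsum
  | cons φ l ih =>
    exact Guarded.imp (Guarded.imp (h φ (List.mem_cons_self)) Guarded.falsum)
      (ih fun ψ hψ => h ψ (List.mem_cons_of_mem _ hψ))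

theorem rz_orL {L : FirstOrder.Language.{0, 0}} {M : Type} (s : L.Structure M) {n : ℕ}
    (l : List (L.BoundedFormula Empty n)) (v : Fin n → M) :
    Rz s (orL l) v ↔ ∃ φ ∈ l, Rz s φ v := by
  induction l with
  | nil => simp [orL, Rz.falsum]
  | cons φ l ih =>
    rw [orL, Rz.imp, Rz.imp, ih, Rz.falsum]
    simp only [List.mem_cons, exists_eq_or_imp]
    constructor
    · intro h
      by_cases h1 : Rz s φ v
      · exact Or.inl h1
      · exact Or.inr (h h1)
    · rintro (h1 | h2) h3
      · exact absurd h1 h3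
      · exact h2

abbrev gT {n : ℕ} (i : Fin n) : LG.Term (Empty ⊕ Fin n) := FirstOrder.Language.Term.var (Sum.inr i)

abbrev gE {n : ℕ} (i j : Fin n) : LG.BoundedFormula Empty n :=
  FirstOrder.Language.BoundedFormula.rel (L := LG) (n := n) (GRel.E) ![gT i, gT j]

/-- the edge relation -/
def ed {M : Type} (s : LG.Structure M) (x y : M) : Prop := s.RelMap (n := 2) GRel.E ![x, y]

theorem rz_gE {M : Type} (s : LG.Structure M) {n : ℕ} (i j : Fin n) (v : Fin n → M) :
    Rz s (gE i j) v ↔ ed s (v i) (v j) := by
  rw [Rz.rel]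
  unfold ed
  have : (fun k : Fin 2 => @FirstOrder.Language.Term.realize LG M s _
        (Sum.elim (fun e => Empty.elim e) v) ((![gT i, gT j] : Fin 2 → _) k)) = ![v i, v j] := by
    funext k
    fin_cases k
    · rfl
    · rfl
  rw [this]

/-- in the variables `x, y_1, …, y_k, z`: `z` is one of the `y_i` -/
def isOld (k : ℕ) : LG.BoundedFormula Empty (k + 2) :=
  orL (List.ofFn fun i : Fin k =>
    FirstOrder.Language.BoundedFormula.equal (gT (Fin.last (k + 1))) (gT i.succ.castSucc))

/-- in the variables `x, y_1, …, y_k`: there are exactly `m` further `E`-neighbours of `x` -/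
def cnt : (m k : ℕ) → LG.BoundedFormula Empty (k + 1)
  | 0, k => FirstOrder.Language.BoundedFormula.all (FirstOrder.Language.BoundedFormula.imp
      (gE (0 : Fin (k + 2)) (Fin.last (k + 1))) (isOld k))
  | m + 1, k => FirstOrder.Language.BoundedFormula.imp
      (FirstOrder.Language.BoundedFormula.all (FirstOrder.Language.BoundedFormula.imp
        (gE (0 : Fin (k + 2)) (Fin.last (k + 1)))
        (FirstOrder.Language.BoundedFormula.imp
          (FirstOrder.Language.BoundedFormula.imp (isOld k) FirstOrder.Language.BoundedFormula.falsum)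
          (FirstOrder.Language.BoundedFormula.imp (cnt m (k + 1))
            FirstOrder.Language.BoundedFormula.falsum))))
      FirstOrder.Language.BoundedFormula.falsum

theorem guarded_isOld (k : ℕ) : Guarded (isOld k) := by
  refine guarded_orL _ fun φ hφ => ?_
  rw [List.mem_ofFn] at hφ
  obtain ⟨i, rfl⟩ := hφ
  exact Guarded.equal _ _

theorem guarded_cnt : ∀ m k : ℕ, Guarded (cnt m k)
  | 0, k => by
    rw [cnt]
    exact Guarded.all (L := LG) (n := k + 1) GRel.E _ ⟨1, rfl⟩ ⟨0, 0, rfl⟩ (guarded_isOld k)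
  | m + 1, k => by
    rw [cnt]
    exact Guarded.imp (Guarded.all (L := LG) (n := k + 1) GRel.E _ ⟨1, rfl⟩ ⟨0, 0, rfl⟩
      (Guarded.imp (Guarded.imp (guarded_isOld k) Guarded.falsum)
        (Guarded.imp (guarded_cnt m (k + 1)) Guarded.falsum))) Guarded.falsum

theorem rz_isOld {M : Type} (s : LG.Structure M) {k : ℕ} (x z : M) (y : Fin k → M) :
    Rz s (isOld k) (Fin.snoc (Fin.cons x y : Fin (k + 1) → M) z : Fin (k + 2) → M) ↔
      ∃ i, z = y i := by
  unfold isOld
  rw [rz_orL]
  simp only [List.mem_ofFn, exists_exists_eq_and, Rz.equal]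
  refine exists_congr fun i => ?_
  show (Fin.snoc (Fin.cons x y : Fin (k + 1) → M) z : Fin (k + 2) → M) (Fin.last (k + 1)) =
    (Fin.snoc (Fin.cons x y : Fin (k + 1) → M) z : Fin (k + 2) → M) i.succ.castSucc ↔ _
  rw [Fin.snoc_last, Fin.snoc_castSucc, Fin.cons_succ]

theorem rz_gE' {M : Type} (s : LG.Structure M) {k : ℕ} (x z : M) (y : Fin k → M) :
    Rz s (gE (0 : Fin (k + 2)) (Fin.last (k + 1)))
      (Fin.snoc (Fin.cons x y : Fin (k + 1) → M) z : Fin (k + 2) → M) ↔ ed s x z := by
  rw [rz_gE]
  have e1 : (Fin.snoc (Fin.cons x y : Fin (k + 1) → M) z : Fin (k + 2) → M) 0 = x := by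
    show (Fin.snoc (Fin.cons x y : Fin (k + 1) → M) z : Fin (k + 2) → M) (0 : Fin (k + 1)).castSucc = x
    rw [Fin.snoc_castSucc]; rfl
  have e2 : (Fin.snoc (Fin.cons x y : Fin (k + 1) → M) z : Fin (k + 2) → M) (Fin.last (k + 1)) = z := by
    rw [Fin.snoc_last]
  rw [e1, e2]

theorem rz_cnt {M : Type} [Finite M] (s : LG.Structure M) (x : M) :
    ∀ (m k : ℕ) (y : Fin k → M), Function.Injective y → (∀ i, ed s x (y i)) →
      (Rz s (cnt m k) (Fin.cons x y : Fin (k + 1) → M) ↔ Nat.card {z // ed s x z} = k + m)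
  | 0, k, y, hy, hN => by
    rw [cnt, Rz.all]
    simp only [Rz.imp, rz_isOld, rz_gE']
    have hf : Function.Injective (fun i => ⟨y i, hN i⟩ : Fin k → {z // ed s x z}) := by
      intro i j h
      exact hy (congrArg Subtype.val h)
    constructor
    · intro H
      have hb : Function.Bijective (fun i => ⟨y i, hN i⟩ : Fin k → {z // ed s x z}) := by
        refine ⟨hf, ?_⟩
        rintro ⟨z, hz⟩
        obtain ⟨i, rfl⟩ := H z hz
        exact ⟨i, rfl⟩
      rw [← Nat.card_congr (Equiv.ofBijective _ hb), Nat.card_fin, Nat.add_zero]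
    · intro H z hz
      have hb := hf.bijective_of_nat_card_le (by rw [H, Nat.card_fin]; omega)
      obtain ⟨i, hi⟩ := hb.2 ⟨z, hz⟩
      exact ⟨i, (congrArg Subtype.val hi).symm⟩
  | m + 1, k, y, hy, hN => by
    rw [cnt, Rz.imp, Rz.all]
    simp only [Rz.imp, rz_isOld, rz_gE', Rz.falsum]
    have hsn : ∀ z : M, (Fin.snoc (Fin.cons x y : Fin (k + 1) → M) z : Fin (k + 2) → M) =
        (Fin.cons x (Fin.snoc y z : Fin (k + 1) → M) : Fin (k + 2) → M) := by
      intro z
      rw [Fin.cons_snoc_eq_snoc_cons]
    have hIH : ∀ z : M, ed s x z → (¬ ∃ i, z = y i) →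
        (Rz s (cnt m (k + 1)) (Fin.snoc (Fin.cons x y : Fin (k + 1) → M) z : Fin (k + 2) → M) ↔
          Nat.card {z // ed s x z} = k + 1 + m) := by
      intro z hz hzy
      rw [hsn]
      refine rz_cnt s x m (k + 1) (Fin.snoc y z) ?_ ?_
      · intro i j
        refine Fin.lastCases ?_ (fun i => ?_) i
        · refine Fin.lastCases ?_ (fun j => ?_) j
          · intro _; rfl
          · rw [Fin.snoc_last, Fin.snoc_castSucc]
            intro h; exact absurd ⟨j, h⟩ hzy
        · refine Fin.lastCases ?_ (fun j => ?_) j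
          · rw [Fin.snoc_last, Fin.snoc_castSucc]
            intro h; exact absurd ⟨i, h.symm⟩ hzy
          · rw [Fin.snoc_castSucc, Fin.snoc_castSucc]
            intro h; rw [hy h]
      · intro i
        refine Fin.lastCases ?_ (fun i => ?_) i
        · rw [Fin.snoc_last]; exact hz
        · rw [Fin.snoc_castSucc]; exact hN i
    constructor
    · intro H
      by_contra hne
      apply H
      intro z hz hzy hc
      have := (hIH z hz hzy).1 hc
      omega
    · intro H H2
      have hf : Function.Injective (fun i => ⟨y i, hN i⟩ : Fin k → {z // ed s x z}) := by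
        intro i j h
        exact hy (congrArg Subtype.val h)
      have hns : ¬ Function.Surjective (fun i => ⟨y i, hN i⟩ : Fin k → {z // ed s x z}) := by
        intro hs
        have := Nat.card_congr (Equiv.ofBijective _ ⟨hf, hs⟩)
        rw [Nat.card_fin] at this
        omega
      unfold Function.Surjective at hns
      push Not at hns
      obtain ⟨⟨z, hz⟩, hzn⟩ := hns
      have hzy : ¬ ∃ i, z = y i := by
        rintro ⟨i, hi⟩
        exact hzn i (Subtype.ext hi.symm)
      exact H2 z hz (fun hex => hzy hex) ((hIH z hz hzy).2 (by omega))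

end Pool.Agent.H998.AS
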