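import Pool.Agent.H998.AS.Conv
set_option autoImplicit false
set_option linter.unusedSectionVars false

/-! Every finite union of additively closed sets is the spectrum of a guarded sentence, continued. -/

namespace Pool.Agent.H998.AS
open FirstOrder

/-- conjunction of two formulas -/
abbrev an {L : FirstOrder.Language.{0, 0}} {n : ℕ} (φ ψ : L.BoundedFormula Empty n) : L.BoundedFormula Empty n :=
  FirstOrder.Language.BoundedFormula.imp
    (FirstOrder.Language.BoundedFormula.imp φ
      (FirstOrder.Language.BoundedFormula.imp ψ FirstOrder.Language.BoundedFormula.falsum))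
    FirstOrder.Language.BoundedFormula.falsum

theorem guarded_an {L : FirstOrder.Language.{0, 0}} {n : ℕ} {φ ψ : L.BoundedFormula Empty n}
    (h : Guarded φ) (h' : Guarded ψ) : Guarded (an φ ψ) :=
  Guarded.imp (Guarded.imp h (Guarded.imp h' Guarded.falsum)) Guarded.falsum

theorem rz_an {L : FirstOrder.Language.{0, 0}} {M : Type} (s : L.Structure M) {n : ℕ}
    (φ ψ : L.BoundedFormula Empty n) (v : Fin n → M) :
    Rz s (an φ ψ) v ↔ (Rz s φ v ∧ Rz s ψ v) := by
  unfold an
  rw [Rz.imp, Rz.imp, Rz.imp, Rz.falsum]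
  tauto

/-- `x` lies in a class of `E` with a size from the list `G` -/
def good (G : List ℕ) : LG.BoundedFormula Empty 1 :=
  an (gE 0 0) (an
    (FirstOrder.Language.BoundedFormula.all (FirstOrder.Language.BoundedFormula.imp
      (gE (0 : Fin 2) 1) (gE 1 0))) (an
    (FirstOrder.Language.BoundedFormula.all (FirstOrder.Language.BoundedFormula.imp
      (gE (0 : Fin 2) 1)
      (FirstOrder.Language.BoundedFormula.all (FirstOrder.Language.BoundedFormula.imp
        (gE (1 : Fin 3) 2) (gE 0 2)))))
    (orL (G.map fun g => cnt g 0))))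

theorem guarded_good (G : List ℕ) : Guarded (good G) := by
  refine guarded_an (Guarded.rel (Nat.succ_pos _) _ _) (guarded_an
    (Guarded.all (L := LG) (n := 1) GRel.E _ ⟨1, rfl⟩ ⟨0, 0, rfl⟩
      (Guarded.rel (Nat.succ_pos _) _ _)) (guarded_an
    (Guarded.all (L := LG) (n := 1) GRel.E _ ⟨1, rfl⟩ ⟨0, 0, rfl⟩
      (Guarded.all (L := LG) (n := 2) GRel.E _ ⟨1, rfl⟩ ⟨0, 1, rfl⟩
        (Guarded.rel (Nat.succ_pos _) _ _))) (guarded_orL _ fun φ hφ => ?_)))
  rw [List.mem_map] at hφ
  obtain ⟨g, _, rfl⟩ := hφ
  exact guarded_cnt g 0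

theorem rz_good {M : Type} [Finite M] (s : LG.Structure M) (G : List ℕ) (x : M) :
    HoldsAt s (good G) x ↔ (ed s x x ∧ (∀ y, ed s x y → ed s y x) ∧
      (∀ y, ed s x y → ∀ z, ed s y z → ed s x z) ∧ Nat.card {z // ed s x z} ∈ G) := by
  show Rz s (good G) (fun _ => x) ↔ _
  unfold good
  rw [rz_an, rz_an, rz_an, rz_orL]
  simp only [Rz.all, Rz.imp, rz_gE, List.mem_map, exists_exists_and_eq_and]
  have hx : (fun _ => x : Fin 1 → M) = Fin.cons x (Fin.elim0 : Fin 0 → M) := by
    funext i
    have hi : i = 0 := Subsingleton.elim _ _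
    subst hi
    rfl
  have hc : ∀ g, (Rz s (cnt g 0) (fun _ => x : Fin 1 → M) ↔ Nat.card {z // ed s x z} = g) := by
    intro g
    rw [hx, rz_cnt s x g 0 Fin.elim0 (fun i => i.elim0) (fun i => i.elim0), Nat.zero_add]
  simp only [hc, exists_eq_right']
  exact Iff.rfl

/-- the sentence: `E` is an equivalence relation and every class has a size in `G` -/
def allGood (G : List ℕ) : LG.Sentence :=
  FirstOrder.Language.BoundedFormula.not (FirstOrder.Language.BoundedFormula.ex
    (FirstOrder.Language.BoundedFormula.not (good G)))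

theorem allGood_oneWitness (G : List ℕ) : OneWitness Guarded (allGood G) :=
  (OneWitness.ex _ (Guarded.imp (guarded_good G) Guarded.falsum)).not

theorem realize_allGood {M : Type} (s : LG.Structure M) (G : List ℕ) :
    @FirstOrder.Language.Sentence.Realize LG M s (allGood G) ↔ ∀ a, HoldsAt s (good G) a := by
  unfold allGood
  rw [realize_not', realize_ex_iff]
  have : ∀ a, HoldsAt s (FirstOrder.Language.BoundedFormula.not (good G)) a ↔
      ¬ HoldsAt s (good G) a := by
    intro a; exact Iff.rfl
  simp only [this, not_exists, not_not]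

/-- counting by classes -/
theorem card_mem {M : Type} [Finite M] (r : Setoid M) (G : Set ℕ)
    (h : ∀ x, Nat.card {z // r x z} ∈ G) : Nat.card M ∈ AddSubmonoid.closure G := by
  classical
  have e : (Σ q : Quotient r, {x : M // (Quotient.mk r x) = q}) ≃ M := Equiv.sigmaFiberEquiv _
  have : Fintype (Quotient r) := Fintype.ofFinite _
  rw [← Nat.card_congr e, Nat.card_sigma]
  refine AddSubmonoid.sum_mem _ fun q _ => ?_
  induction q using Quotient.inductionOn with
  | h x =>
    have : Nat.card {z : M // Quotient.mk r z = Quotient.mk r x} = Nat.card {z // r x z} := by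
      refine Nat.card_congr (Equiv.subtypeEquivRight fun z => ?_)
      rw [Quotient.eq]
      exact ⟨fun h => r.symm h, fun h => r.symm h⟩
    rw [this]
    exact AddSubmonoid.subset_closure (h x)

/-- the model with classes of sizes `l` -/
@[reducible] def clStr (l : List ℕ) : LG.Structure (Σ i : Fin l.length, Fin (l.get i)) where
  funMap := fun f _ => Empty.elim f
  RelMap := fun {n} (R : GRel n) v => match n, R, v with
    | _, GRel.E, v => (v 0).1 = (v 1).1

theorem ed_clStr (l : List ℕ) (x y : Σ i : Fin l.length, Fin (l.get i)) :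
    ed (clStr l) x y ↔ x.1 = y.1 := Iff.rfl

theorem spec_allGood (A : Set ℕ) (G : List ℕ) (hA : ∀ n ∈ A, 0 < n)
    (hG : ∀ n, 0 < n → (n ∈ A ↔ n ∈ AddSubmonoid.closure {g | g ∈ G})) :
    spec (allGood G) = A := by
  ext n
  constructor
  · rintro ⟨hn, M, s, hc, hr⟩
    have fM : Finite M := Nat.finite_of_card_ne_zero (by omega)
    rw [realize_allGood] at hr
    simp only [rz_good] at hr
    rw [hG n hn, ← hc]
    let r : Setoid M := ⟨ed s, ⟨fun x => (hr x).1, fun {x y} h => (hr x).2.1 y h,
      fun {x y z} h h' => (hr x).2.2.1 y h z h'⟩⟩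
    exact card_mem r _ fun x => (hr x).2.2.2
  · intro hn
    have h0 := hA n hn
    have hn' := (hG n h0).1 hn
    obtain ⟨l, hl, hs⟩ := AddSubmonoid.exists_list_of_mem_closure hn'
    refine ⟨h0, _, clStr l, ?_, ?_⟩
    · rw [Nat.card_sigma]
      simp only [Nat.card_fin]
      rw [← hs]
      exact Fin.sum_univ_getElem l
    · rw [realize_allGood]
      intro x
      rw [rz_good]
      refine ⟨rfl, fun y h => ?_, fun y h z h' => ?_, ?_⟩
      · rw [ed_clStr] at *; exact h.symm
      · rw [ed_clStr] at *; exact h.trans h'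
      · have : Nat.card {z // ed (clStr l) x z} = l.get x.1 := by
          have e : {z : (Σ i : Fin l.length, Fin (l.get i)) // z.1 = x.1} ≃ Fin (l.get x.1) :=
            Equiv.sigmaSubtype x.1
          rw [← Nat.card_fin (l.get x.1), ← Nat.card_congr e]
          refine Nat.card_congr (Equiv.subtypeEquivRight fun z => ?_)
          rw [ed_clStr]
          exact eq_comm
        rw [this]
        exact hl _ (List.get_mem _ _)

/-- generators -/
theorem exists_gens {A : Set ℕ} (h : AddClosed A) :
    ∃ G : List ℕ, ∀ n, 0 < n → (n ∈ A ↔ n ∈ AddSubmonoid.closure {g | g ∈ G}) := by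
  classical
  let S : AddSubmonoid ℕ :=
    { carrier := {n | n = 0 ∨ n ∈ A}
      zero_mem' := Or.inl rfl
      add_mem' := by
        rintro a b (rfl | ha) (rfl | hb)
        · exact Or.inl rfl
        · right; simpa using hb
        · right; simpa using ha
        · exact Or.inr (h a ha b hb) }
  obtain ⟨G, hG⟩ := Nat.addSubmonoid_fg S
  refine ⟨G.toList, fun n hn => ?_⟩
  have e : {g | g ∈ G.toList} = (G : Set ℕ) := by
    ext g; simp
  rw [e, hG]
  show _ ↔ (n = 0 ∨ n ∈ A)
  constructor
  · intro h; exact Or.inr h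
  · rintro (h | h)
    · omega
    · exact h

theorem conv {k : ℕ} (A : Fin k → Set ℕ) (h : ∀ i, AddClosed (A i)) (hpos : ∀ i, ∀ n ∈ A i, 0 < n) :
    ∃ φ : LG.Sentence, OneWitness Guarded φ ∧ spec φ = ⋃ i, A i := by
  classical
  choose G hG using fun i => exists_gens (h i)
  refine ⟨orL (List.ofFn fun i => allGood (G i)), ?_, ?_⟩
  · have key : ∀ l : List LG.Sentence, (∀ φ ∈ l, OneWitness Guarded φ) → OneWitness Guarded (orL l) := by
      intro l
      induction l with
      | nil => intro _; exact OneWitness.bot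
      | cons φ l ih =>
        intro hl
        exact OneWitness.imp (hl φ (List.mem_cons_self)).not
          (ih fun ψ hψ => hl ψ (List.mem_cons_of_mem _ hψ))
    refine key _ fun φ hφ => ?_
    rw [List.mem_ofFn] at hφ
    obtain ⟨i, rfl⟩ := hφ
    exact allGood_oneWitness _
  · have hr : ∀ (M : Type) (s : LG.Structure M),
        (@FirstOrder.Language.Sentence.Realize LG M s (orL (List.ofFn fun i => allGood (G i))) ↔
          ∃ i, @FirstOrder.Language.Sentence.Realize LG M s (allGood (G i))) := by
      intro M s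
      rw [sent_iff s _ Fin.elim0, rz_orL]
      simp only [List.mem_ofFn, exists_exists_eq_and]
      exact exists_congr fun i => (sent_iff s _ Fin.elim0).symm
    have e : spec (orL (List.ofFn fun i => allGood (G i)) : LG.Sentence) = ⋃ i, spec (allGood (G i)) := by
      ext n
      simp only [Set.mem_iUnion]
      constructor
      · rintro ⟨hn, M, s, hc, hφ⟩
        obtain ⟨i, hi⟩ := (hr M s).1 hφ
        exact ⟨i, hn, M, s, hc, hi⟩
      · rintro ⟨i, hn, M, s, hc, hi⟩
        exact ⟨hn, M, s, hc, (hr M s).2 ⟨i, hi⟩⟩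
    rw [e]
    exact Set.iUnion_congr fun i => spec_allGood (A i) (G i) (hpos i) (hG i)

end Pool.Agent.H998.AS
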