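import Mathlib
set_option autoImplicit false

/-! Spectra of first-order sentences: definitions. -/

namespace Pool.Agent.H998.AS
open FirstOrder

/-- The disjoint union of two structures for a relational language: the base set is `M ⊕ N`, and a
tuple is in a relation iff it lies entirely in `M` and is in the relation of `M`, or entirely in `N`
and is in the relation of `N`. -/
@[reducible] def sumStr {L : FirstOrder.Language.{0, 0}} [L.IsRelational] {M N : Type}
    (sM : L.Structure M) (sN : L.Structure N) : L.Structure (M ⊕ N) where
  funMap := fun f _ => isEmptyElim f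
  RelMap := fun {n} R x =>
    (∃ y : Fin n → M, x = Sum.inl ∘ y ∧ sM.RelMap R y) ∨
      (∃ y : Fin n → N, x = Sum.inr ∘ y ∧ sN.RelMap R y)

/-- `HoldsAt s θ a`: the formula `θ(x)` (one free variable) holds at `x = a` in the structure `s`. -/
def HoldsAt {L : FirstOrder.Language.{0, 0}} {M : Type} (s : L.Structure M) (θ : L.BoundedFormula Empty 1)
    (a : M) : Prop :=
  @FirstOrder.Language.BoundedFormula.Realize L M s Empty 1 θ (fun e => e.elim) (fun _ => a)

/-- `θ(x)` is local: its truth at an element of a finite structure does not change when a disjoint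
finite structure is added. -/
def IsLocal {L : FirstOrder.Language.{0, 0}} [L.IsRelational] (θ : L.BoundedFormula Empty 1) : Prop :=
  ∀ (M N : Type) [Finite M] [Finite N] (sM : L.Structure M) (sN : L.Structure N),
    (∀ a : M, HoldsAt (sumStr sM sN) θ (Sum.inl a) ↔ HoldsAt sM θ a) ∧
      (∀ b : N, HoldsAt (sumStr sM sN) θ (Sum.inr b) ↔ HoldsAt sN θ b)

/-- Guarded formulas in the variables `x_0, …, x_{n-1}`: atomic formulas (with equality; relation
symbols of arity at least one), `⊥`, implications, and quantifications `∀ y, (R(…) → φ)` in which the atom `R(…)` contains the new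
variable `y = x_n` and at least one of the old variables. -/
inductive Guarded {L : FirstOrder.Language.{0, 0}} :
    ∀ {n : ℕ}, L.BoundedFormula Empty n → Prop
  | falsum {n : ℕ} : Guarded (FirstOrder.Language.BoundedFormula.falsum (n := n))
  | equal {n : ℕ} (t₁ t₂ : L.Term (Empty ⊕ Fin n)) :
      Guarded (FirstOrder.Language.BoundedFormula.equal t₁ t₂)
  | rel {n l : ℕ} (hl : 0 < l) (R : L.Relations l) (ts : Fin l → L.Term (Empty ⊕ Fin n)) :
      Guarded (FirstOrder.Language.BoundedFormula.rel R ts)
  | imp {n : ℕ} {φ ψ : L.BoundedFormula Empty n} (h₁ : Guarded φ) (h₂ : Guarded ψ) :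
      Guarded (FirstOrder.Language.BoundedFormula.imp φ ψ)
  | all {n l : ℕ} (R : L.Relations l) (ts : Fin l → L.Term (Empty ⊕ Fin (n + 1)))
      (hi : ∃ i, ts i = FirstOrder.Language.Term.var (Sum.inr (Fin.last n)))
      (hj : ∃ j, ∃ k : Fin n, ts j = FirstOrder.Language.Term.var (Sum.inr k.castSucc))
      {φ : L.BoundedFormula Empty (n + 1)} (h : Guarded φ) :
      Guarded (FirstOrder.Language.BoundedFormula.all
        (FirstOrder.Language.BoundedFormula.imp (FirstOrder.Language.BoundedFormula.rel R ts) φ))

/-- Boolean combinations (built from `⊥` and implication) of the sentences `∃ x, θ(x)` with `θ` in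
the class `C`. -/
inductive OneWitness {L : FirstOrder.Language.{0, 0}} (C : L.BoundedFormula Empty 1 → Prop) :
    L.Sentence → Prop
  | ex (θ : L.BoundedFormula Empty 1) (h : C θ) : OneWitness C θ.ex
  | bot : OneWitness C (⊥ : L.Sentence)
  | imp {φ ψ : L.Sentence} (h₁ : OneWitness C φ) (h₂ : OneWitness C ψ) :
      OneWitness C (FirstOrder.Language.BoundedFormula.imp φ ψ)

/-- `φ` is preserved under disjoint unions: if two finite structures satisfy `φ` then so does their
disjoint union. -/
def SumPreserved {L : FirstOrder.Language.{0, 0}} [L.IsRelational] (φ : L.Sentence) : Prop :=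
  ∀ (M N : Type) [Finite M] [Finite N] (sM : L.Structure M) (sN : L.Structure N),
    @FirstOrder.Language.Sentence.Realize L M sM φ → @FirstOrder.Language.Sentence.Realize L N sN φ →
      @FirstOrder.Language.Sentence.Realize L (M ⊕ N) (sumStr sM sN) φ

/-- Sum sentences: the smallest class closed under conjunction and disjunction that contains the
one-witness sentences (Boolean combinations of the `∃ x, θ(x)` with `θ` local) and all sentences
preserved under disjoint unions. -/
inductive SumSentence {L : FirstOrder.Language.{0, 0}} [L.IsRelational] : L.Sentence → Prop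
  | one {φ : L.Sentence} (h : OneWitness IsLocal φ) : SumSentence φ
  | pres {φ : L.Sentence} (h : SumPreserved φ) : SumSentence φ
  | inf {φ ψ : L.Sentence} (h₁ : SumSentence φ) (h₂ : SumSentence ψ) : SumSentence (φ ⊓ ψ)
  | sup {φ ψ : L.Sentence} (h₁ : SumSentence φ) (h₂ : SumSentence ψ) : SumSentence (φ ⊔ ψ)

/-- The spectrum of a sentence: the set of sizes of its finite (nonempty) models. -/
def spec {L : FirstOrder.Language.{0, 0}} (φ : L.Sentence) : Set ℕ :=
  {n | 0 < n ∧ ∃ (M : Type) (_ : L.Structure M), Nat.card M = n ∧ φ.Realize M}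

/-- A set of natural numbers closed under addition. -/
def AddClosed (A : Set ℕ) : Prop := ∀ m ∈ A, ∀ n ∈ A, m + n ∈ A

end Pool.Agent.H998.AS
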