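import Pool.Agent.H998.AS.Connd
set_option autoImplicit false
set_option linter.unusedSectionVars false

/-! Elimination of function symbols: every spectrum is the spectrum of a relational sentence. -/

namespace Pool.Agent.H998.AS
open FirstOrder

inductive FRel (L : FirstOrder.Language.{0, 0}) : ℕ → Type
  | fn {l : ℕ} (f : L.Functions l) : FRel L (l + 1)
  | rl {l : ℕ} (R : L.Relations l) : FRel L l

/-- the relational language with a symbol for the graph of each function symbol -/
@[reducible] def LR (L : FirstOrder.Language.{0, 0}) : FirstOrder.Language.{0, 0} := ⟨fun _ => Empty, FRel L⟩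

instance (L : FirstOrder.Language.{0, 0}) : (LR L).IsRelational := fun _ => inferInstanceAs (IsEmpty Empty)

variable {L : FirstOrder.Language.{0, 0}}

/-- the formula `z = t(v)` -/
noncomputable def gam {α : Type} : L.Term α → (LR L).Formula (α ⊕ Unit)
  | FirstOrder.Language.Term.var a =>
      FirstOrder.Language.Term.equal (FirstOrder.Language.Term.var (Sum.inl a))
        (FirstOrder.Language.Term.var (Sum.inr ()))
  | FirstOrder.Language.Term.func (l := l) f ts =>
      FirstOrder.Language.Formula.iExs (Fin l)
        ((FirstOrder.Language.Formula.iInf fun i : Fin l =>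
            (gam (ts i)).relabel (fun a : α ⊕ Unit =>
              (Sum.elim (fun a => Sum.inl (Sum.inl a)) (fun _ => Sum.inr i) a :
                (α ⊕ Unit) ⊕ Fin l))) ⊓
          (FirstOrder.Language.Relations.formula (L := LR L) (FRel.fn f)
            (Fin.snoc (fun i => FirstOrder.Language.Term.var (Sum.inr i))
              (FirstOrder.Language.Term.var (Sum.inl (Sum.inr ()))) : Fin (l + 1) → _)))

def Agree {M : Type} (s : L.Structure M) (s' : (LR L).Structure M) {l : ℕ} (f : L.Functions l) : Prop :=
  ∀ (x : Fin l → M) (z : M), s'.RelMap (n := l + 1) (FRel.fn f) (Fin.snoc x z) ↔ z = s.funMap f x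

def TOK {M : Type} (s : L.Structure M) (s' : (LR L).Structure M) {α : Type} : L.Term α → Prop
  | FirstOrder.Language.Term.var _ => True
  | FirstOrder.Language.Term.func f ts => Agree s s' f ∧ ∀ i, TOK s s' (ts i)

theorem realize_gam {M : Type} [s : L.Structure M] [s' : (LR L).Structure M] {α : Type}
    (t : L.Term α) (h : TOK s s' t) (v : α → M) (z : M) :
    (gam t).Realize (Sum.elim v (fun _ => z)) ↔ z = t.realize v := by
  induction t generalizing z with
  | var a =>
    rw [gam, FirstOrder.Language.Formula.realize_equal]
    exact eq_comm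
  | @func l f ts ih =>
    obtain ⟨hA, hT⟩ := h
    rw [gam, FirstOrder.Language.Formula.realize_iExs]
    have h1 : ∀ (y : Fin l → M) (i : Fin l), ((gam (ts i)).relabel (fun a : α ⊕ Unit =>
              (Sum.elim (fun a => Sum.inl (Sum.inl a)) (fun _ => Sum.inr i) a :
                (α ⊕ Unit) ⊕ Fin l))).Realize (Sum.elim (Sum.elim v (fun _ => z)) y) ↔
          y i = (ts i).realize v := by
      intro y i
      rw [FirstOrder.Language.Formula.realize_relabel, ← ih i (hT i) (y i)]
      have : (Sum.elim (Sum.elim v (fun _ => z)) y ∘ fun a : α ⊕ Unit =>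
              (Sum.elim (fun a => Sum.inl (Sum.inl a)) (fun _ => Sum.inr i) a :
                (α ⊕ Unit) ⊕ Fin l)) = Sum.elim v (fun _ => y i) := by
        funext a
        rcases a with a | a
        · rfl
        · rfl
      rw [this]
    have h2 : ∀ (y : Fin l → M), ((FirstOrder.Language.Relations.formula (L := LR L) (FRel.fn f)
            (Fin.snoc (fun i => FirstOrder.Language.Term.var (Sum.inr i))
              (FirstOrder.Language.Term.var (Sum.inl (Sum.inr ()))) :
                Fin (l + 1) → (LR L).Term ((α ⊕ Unit) ⊕ Fin l))).Realize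
                  (Sum.elim (Sum.elim v (fun _ => z)) y) ↔
          z = s.funMap f y) := by
      intro y
      rw [FirstOrder.Language.Formula.realize_rel, ← hA y z]
      have : (fun i => FirstOrder.Language.Term.realize (Sum.elim (Sum.elim v (fun _ => z)) y)
          ((Fin.snoc (fun i => FirstOrder.Language.Term.var (Sum.inr i))
              (FirstOrder.Language.Term.var (Sum.inl (Sum.inr ()))) :
                Fin (l + 1) → (LR L).Term ((α ⊕ Unit) ⊕ Fin l)) i)) = Fin.snoc y z := by
        funext i
        refine Fin.lastCases ?_ (fun i => ?_) i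
        · simp [Fin.snoc_last]
        · simp [Fin.snoc_castSucc]
      rw [this]
    simp only [FirstOrder.Language.Formula.realize_inf, FirstOrder.Language.Formula.realize_iInf, h1, h2]
    constructor
    · rintro ⟨y, hy, hz⟩
      rw [hz]
      show _ = s.funMap f (fun i => (ts i).realize v)
      congr 1
      funext i; exact hy i
    · intro hz
      exact ⟨fun i => (ts i).realize v, fun _ => rfl, hz⟩

/-- `f` is a function -/
def funcAx {l : ℕ} (f : L.Functions l) : (LR L).Sentence :=
  FirstOrder.Language.BoundedFormula.alls (n := l)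
    ((FirstOrder.Language.BoundedFormula.ex
      (FirstOrder.Language.BoundedFormula.rel (L := LR L) (n := l + 1) (FRel.fn f)
        (fun i : Fin (l + 1) => FirstOrder.Language.Term.var (Sum.inr i)))) ⊓
    (FirstOrder.Language.BoundedFormula.all (FirstOrder.Language.BoundedFormula.all
      (FirstOrder.Language.BoundedFormula.imp
        (FirstOrder.Language.BoundedFormula.rel (L := LR L) (n := l + 2) (FRel.fn f)
          (fun i : Fin (l + 1) => FirstOrder.Language.Term.var (Sum.inr i.castSucc)))
        (FirstOrder.Language.BoundedFormula.imp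
          (FirstOrder.Language.BoundedFormula.rel (L := LR L) (n := l + 2) (FRel.fn f)
            (Fin.snoc (fun i : Fin l => FirstOrder.Language.Term.var (Sum.inr i.castSucc.castSucc))
              (FirstOrder.Language.Term.var (Sum.inr (Fin.last (l + 1)))) : Fin (l + 1) → _))
          (FirstOrder.Language.BoundedFormula.equal
            (FirstOrder.Language.Term.var (Sum.inr (Fin.last l).castSucc))
            (FirstOrder.Language.Term.var (Sum.inr (Fin.last (l + 1))))))))))

theorem realize_funcAx {M : Type} [s' : (LR L).Structure M] {l : ℕ} (f : L.Functions l) :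
    M ⊨ funcAx f ↔ ∀ x : Fin l → M, (∃ z, s'.RelMap (n := l + 1) (FRel.fn f) (Fin.snoc x z)) ∧
      ∀ z z', s'.RelMap (n := l + 1) (FRel.fn f) (Fin.snoc x z) →
        s'.RelMap (n := l + 1) (FRel.fn f) (Fin.snoc x z') → z = z' := by
  unfold funcAx FirstOrder.Language.Sentence.Realize
  rw [FirstOrder.Language.BoundedFormula.realize_alls]
  refine forall_congr' fun x => ?_
  rw [FirstOrder.Language.BoundedFormula.realize_inf, FirstOrder.Language.BoundedFormula.realize_ex]
  refine and_congr (exists_congr fun z => Iff.rfl) ?_
  rw [FirstOrder.Language.BoundedFormula.realize_all]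
  refine forall_congr' fun z => ?_
  rw [FirstOrder.Language.BoundedFormula.realize_all]
  refine forall_congr' fun z' => ?_
  rw [FirstOrder.Language.BoundedFormula.realize_imp, FirstOrder.Language.BoundedFormula.realize_imp]
  have e1 : (fun i : Fin (l + 1) => FirstOrder.Language.Term.realize (L := LR L)
      (Sum.elim (default : Empty → M) (Fin.snoc (Fin.snoc x z : Fin (l + 1) → M) z' : Fin (l + 2) → M))
      (FirstOrder.Language.Term.var (Sum.inr i.castSucc))) = Fin.snoc x z := by
    funext i
    simp [Fin.snoc_castSucc]
  have e2 : (fun i : Fin (l + 1) => FirstOrder.Language.Term.realize (L := LR L)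
      (Sum.elim (default : Empty → M) (Fin.snoc (Fin.snoc x z : Fin (l + 1) → M) z' : Fin (l + 2) → M))
      ((Fin.snoc (fun i : Fin l => FirstOrder.Language.Term.var (Sum.inr i.castSucc.castSucc))
              (FirstOrder.Language.Term.var (Sum.inr (Fin.last (l + 1)))) : Fin (l + 1) → _) i)) =
        Fin.snoc x z' := by
    funext i
    refine Fin.lastCases ?_ (fun i => ?_) i
    · simp [Fin.snoc_last]
    · simp [Fin.snoc_castSucc]
  refine imp_congr ?_ (imp_congr ?_ ?_)
  · show s'.RelMap _ (fun i : Fin (l + 1) => FirstOrder.Language.Term.realize (L := LR L) _ _) ↔ _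
    rw [e1]
  · show s'.RelMap _ (fun i : Fin (l + 1) => FirstOrder.Language.Term.realize (L := LR L) _ _) ↔ _
    rw [e2]
  · show (Fin.snoc (Fin.snoc x z : Fin (l + 1) → M) z' : Fin (l + 2) → M) (Fin.last l).castSucc =
      (Fin.snoc (Fin.snoc x z : Fin (l + 1) → M) z' : Fin (l + 2) → M) (Fin.last (l + 1)) ↔ _
    rw [Fin.snoc_last, Fin.snoc_castSucc, Fin.snoc_last]

end Pool.Agent.H998.AS
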