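import Pool.Agent.H998.AS.Elim
set_option autoImplicit false
set_option linter.unusedSectionVars false

/-! Elimination of function symbols, continued. -/

namespace Pool.Agent.H998.AS
open FirstOrder

variable {L : FirstOrder.Language.{0, 0}}

noncomputable def AxT {α : Type} : L.Term α → (LR L).Sentence
  | FirstOrder.Language.Term.var _ => ⊤
  | FirstOrder.Language.Term.func f ts =>
      funcAx f ⊓ FirstOrder.Language.BoundedFormula.iInf fun i => AxT (ts i)

noncomputable def AxF {α : Type} : ∀ {n : ℕ}, L.BoundedFormula α n → (LR L).Sentence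
  | _, FirstOrder.Language.BoundedFormula.falsum => ⊤
  | _, FirstOrder.Language.BoundedFormula.equal t u => AxT t ⊓ AxT u
  | _, FirstOrder.Language.BoundedFormula.rel _ ts =>
      FirstOrder.Language.BoundedFormula.iInf fun i => AxT (ts i)
  | _, FirstOrder.Language.BoundedFormula.imp a b => AxF a ⊓ AxF b
  | _, FirstOrder.Language.BoundedFormula.all a => AxF a

def FOK {M : Type} (s : L.Structure M) (s' : (LR L).Structure M) {α : Type} :
    ∀ {n : ℕ}, L.BoundedFormula α n → Prop
  | _, FirstOrder.Language.BoundedFormula.falsum => True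
  | _, FirstOrder.Language.BoundedFormula.equal t u => TOK s s' t ∧ TOK s s' u
  | _, FirstOrder.Language.BoundedFormula.rel _ ts => ∀ i, TOK s s' (ts i)
  | _, FirstOrder.Language.BoundedFormula.imp a b => FOK s s' a ∧ FOK s s' b
  | _, FirstOrder.Language.BoundedFormula.all a => FOK s s' a

/-- translation of formulas -/
noncomputable def tau : ∀ {n : ℕ}, L.BoundedFormula Empty n → (LR L).BoundedFormula Empty n
  | _, FirstOrder.Language.BoundedFormula.falsum => FirstOrder.Language.BoundedFormula.falsum
  | n, FirstOrder.Language.BoundedFormula.equal t u =>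
      (FirstOrder.Language.BoundedFormula.relabel (k := 0) (n := n) (β := Empty) (fun a : Empty ⊕ Fin n => a)
        (FirstOrder.Language.Formula.iExs Unit (gam t ⊓ gam u)) : (LR L).BoundedFormula Empty (n + 0))
  | n, FirstOrder.Language.BoundedFormula.rel (l := l) R ts =>
      (FirstOrder.Language.BoundedFormula.relabel (k := 0) (n := n) (β := Empty) (fun a : Empty ⊕ Fin n => a)
        (FirstOrder.Language.Formula.iExs (Fin l)
          ((FirstOrder.Language.Formula.iInf fun i : Fin l =>
            (gam (ts i)).relabel (fun a : (Empty ⊕ Fin n) ⊕ Unit =>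
              (Sum.elim (fun a => Sum.inl a) (fun _ => Sum.inr i) a :
                (Empty ⊕ Fin n) ⊕ Fin l))) ⊓
          (FirstOrder.Language.Relations.formula (L := LR L) (FRel.rl R)
            (fun i => FirstOrder.Language.Term.var (Sum.inr i))))) : (LR L).BoundedFormula Empty (n + 0))
  | _, FirstOrder.Language.BoundedFormula.imp a b => FirstOrder.Language.BoundedFormula.imp (tau a) (tau b)
  | _, FirstOrder.Language.BoundedFormula.all a => FirstOrder.Language.BoundedFormula.all (tau a)

theorem realize_relab {M : Type} [s' : (LR L).Structure M] {n : ℕ} (φ : (LR L).Formula (Empty ⊕ Fin n))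
    (v : Empty → M) (x : Fin n → M) :
    (FirstOrder.Language.BoundedFormula.relabel (k := 0) (n := n) (β := Empty) (fun a : Empty ⊕ Fin n => a)
      φ : (LR L).BoundedFormula Empty (n + 0)).Realize v x ↔ φ.Realize (Sum.elim v x) := by
  rw [FirstOrder.Language.BoundedFormula.realize_relabel]
  unfold FirstOrder.Language.Formula.Realize
  have h1 : (Sum.elim v (x ∘ Fin.castAdd 0) ∘ fun a : Empty ⊕ Fin n => a) = Sum.elim v x := by
    funext a
    rcases a with a | a
    · rfl
    · rfl
  rw [h1, Subsingleton.elim (x ∘ Fin.natAdd n) (default : Fin 0 → M)]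

theorem realize_tau {M : Type} [s : L.Structure M] [s' : (LR L).Structure M]
    (hR : ∀ {l : ℕ} (R : L.Relations l) (x : Fin l → M), s'.RelMap (FRel.rl R) x ↔ s.RelMap R x)
    {n : ℕ} (φ : L.BoundedFormula Empty n) :
    FOK s s' φ → ∀ (v : Empty → M) (x : Fin n → M), (tau φ).Realize v x ↔ φ.Realize v x := by
  induction φ with
  | falsum => intro _ v x; exact Iff.rfl
  | @equal n t u =>
    rintro ⟨h1, h2⟩ v x
    rw [tau]
    refine (realize_relab _ v x).trans ?_
    rw [FirstOrder.Language.Formula.realize_iExs]
    have e : ∀ y : Unit → M, y = fun _ => y () := by intro y; funext u; rfl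
    constructor
    · rintro ⟨y, hy⟩
      rw [e y, FirstOrder.Language.Formula.realize_inf, realize_gam t h1, realize_gam u h2] at hy
      exact hy.1.symm.trans hy.2
    · intro h
      refine ⟨fun _ => t.realize (Sum.elim v x), ?_⟩
      rw [FirstOrder.Language.Formula.realize_inf, realize_gam t h1, realize_gam u h2]
      exact ⟨rfl, h⟩
  | @rel n l R ts =>
    intro h v x
    rw [tau]
    refine (realize_relab _ v x).trans ?_
    rw [FirstOrder.Language.Formula.realize_iExs]
    have h1 : ∀ (y : Fin l → M) (i : Fin l), ((gam (ts i)).relabel (fun a : (Empty ⊕ Fin n) ⊕ Unit =>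
              (Sum.elim (fun a => Sum.inl a) (fun _ => Sum.inr i) a :
                (Empty ⊕ Fin n) ⊕ Fin l))).Realize (Sum.elim (Sum.elim v x) y) ↔
          y i = (ts i).realize (Sum.elim v x) := by
      intro y i
      rw [FirstOrder.Language.Formula.realize_relabel, ← realize_gam (ts i) (h i) (Sum.elim v x) (y i)]
      have : (Sum.elim (Sum.elim v x) y ∘ fun a : (Empty ⊕ Fin n) ⊕ Unit =>
              (Sum.elim (fun a => Sum.inl a) (fun _ => Sum.inr i) a :
                (Empty ⊕ Fin n) ⊕ Fin l)) = Sum.elim (Sum.elim v x) (fun _ => y i) := by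
        funext a
        rcases a with a | a
        · rfl
        · rfl
      rw [this]
    have h2 : ∀ (y : Fin l → M), ((FirstOrder.Language.Relations.formula (L := LR L) (FRel.rl R)
            (fun i => FirstOrder.Language.Term.var (Sum.inr i) :
                Fin l → (LR L).Term ((Empty ⊕ Fin n) ⊕ Fin l))).Realize
                  (Sum.elim (Sum.elim v x) y) ↔ s.RelMap R y) := by
      intro y
      rw [FirstOrder.Language.Formula.realize_rel, ← hR R y]
      exact Iff.rfl
    simp only [FirstOrder.Language.Formula.realize_inf, FirstOrder.Language.Formula.realize_iInf, h1, h2]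
    constructor
    · rintro ⟨y, hy, hz⟩
      have : y = fun i => (ts i).realize (Sum.elim v x) := by
        funext i; exact hy i
      rw [this] at hz
      exact hz
    · intro hz
      exact ⟨fun i => (ts i).realize (Sum.elim v x), fun _ => rfl, hz⟩
  | imp a b iha ihb =>
    rintro ⟨h1, h2⟩ v x
    rw [tau, FirstOrder.Language.BoundedFormula.realize_imp,
      FirstOrder.Language.BoundedFormula.realize_imp, iha h1, ihb h2]
  | all a ih =>
    intro h v x
    rw [tau, FirstOrder.Language.BoundedFormula.realize_all,
      FirstOrder.Language.BoundedFormula.realize_all]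
    exact forall_congr' fun z => ih h v _

open Classical in
/-- the functions read off from their graphs -/
@[reducible] noncomputable def rebuild {M : Type} [Nonempty M] (s' : (LR L).Structure M) : L.Structure M where
  funMap := fun {l} f x =>
    if h : ∃ z, s'.RelMap (n := l + 1) (FRel.fn f) (Fin.snoc x z) then h.choose
      else Classical.arbitrary M
  RelMap := fun R x => s'.RelMap (FRel.rl R) x

theorem agree_rebuild {M : Type} [Nonempty M] (s' : (LR L).Structure M) {l : ℕ} (f : L.Functions l)
    (h : M ⊨ funcAx f) : Agree (rebuild s') s' f := by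
  rw [realize_funcAx] at h
  intro x z
  obtain ⟨h1, h2⟩ := h x
  have : (rebuild s').funMap f x = h1.choose := dif_pos h1
  rw [this]
  constructor
  · intro h; exact h2 _ _ h h1.choose_spec
  · rintro rfl; exact h1.choose_spec

theorem tok_rebuild {M : Type} [Nonempty M] (s' : (LR L).Structure M) {α : Type} (t : L.Term α)
    (h : M ⊨ AxT t) : TOK (rebuild s') s' t := by
  induction t with
  | var a => trivial
  | @func l f ts ih =>
    unfold AxT at h
    have h' := (realize_inf' s' _ _).1 h
    refine ⟨agree_rebuild s' f h'.1, fun i => ih i ?_⟩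
    exact (FirstOrder.Language.BoundedFormula.realize_iInf.1 h'.2) i

theorem fok_rebuild {M : Type} [Nonempty M] (s' : (LR L).Structure M) {α : Type} {n : ℕ}
    (φ : L.BoundedFormula α n) (h : M ⊨ AxF φ) : FOK (rebuild s') s' φ := by
  induction φ with
  | falsum => trivial
  | equal t u =>
    unfold AxF at h
    have h' := (realize_inf' s' _ _).1 h
    exact ⟨tok_rebuild s' t h'.1, tok_rebuild s' u h'.2⟩
  | rel R ts =>
    unfold AxF at h
    exact fun i => tok_rebuild s' (ts i) ((FirstOrder.Language.BoundedFormula.realize_iInf.1 h) i)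
  | imp a b iha ihb =>
    unfold AxF at h
    have h' := (realize_inf' s' _ _).1 h
    exact ⟨iha h'.1, ihb h'.2⟩
  | all a ih =>
    unfold AxF at h
    exact ih h

/-- the graph structure -/
@[reducible] def graphStr {M : Type} (s : L.Structure M) : (LR L).Structure M where
  funMap := fun f _ => Empty.elim f
  RelMap := fun {n} (R : FRel L n) w => match n, R, w with
    | _, FRel.fn f, w => w (Fin.last _) = s.funMap f (Fin.init w)
    | _, FRel.rl R, w => s.RelMap R w

theorem agree_graph {M : Type} (s : L.Structure M) {l : ℕ} (f : L.Functions l) :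
    Agree s (graphStr s) f := by
  intro x z
  show (Fin.snoc x z : Fin (l + 1) → M) (Fin.last l) =
    s.funMap f (Fin.init (Fin.snoc x z : Fin (l + 1) → M)) ↔ _
  have : (Fin.init (Fin.snoc x z : Fin (l + 1) → M) : Fin l → M) = x := Fin.init_snoc _ _
  rw [Fin.snoc_last, this]

theorem tok_graph {M : Type} (s : L.Structure M) {α : Type} (t : L.Term α) :
    TOK s (graphStr s) t := by
  induction t with
  | var a => trivial
  | func f ts ih => exact ⟨agree_graph s f, ih⟩

theorem fok_graph {M : Type} (s : L.Structure M) {α : Type} {n : ℕ} (φ : L.BoundedFormula α n) :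
    FOK s (graphStr s) φ := by
  induction φ with
  | falsum => trivial
  | equal t u => exact ⟨tok_graph s t, tok_graph s u⟩
  | rel R ts => exact fun i => tok_graph s (ts i)
  | imp a b iha ihb => exact ⟨iha, ihb⟩
  | all a ih => exact ih

theorem axT_graph {M : Type} (s : L.Structure M) {α : Type} (t : L.Term α) :
    @FirstOrder.Language.Sentence.Realize (LR L) M (graphStr s) (AxT t) := by
  let _ := graphStr s
  induction t with
  | var a => exact FirstOrder.Language.BoundedFormula.realize_top.2 trivial
  | func f ts ih =>
    unfold AxT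
    refine (realize_inf' (graphStr s) _ _).2 ⟨?_, ?_⟩
    · refine (realize_funcAx (s' := graphStr s) f).2 fun x => ⟨⟨_, (agree_graph s f x _).2 rfl⟩, ?_⟩
      intro z z' h h'
      rw [(agree_graph s f x z).1 h, (agree_graph s f x z').1 h']
    · exact FirstOrder.Language.BoundedFormula.realize_iInf.2 ih

theorem axF_graph {M : Type} (s : L.Structure M) {α : Type} {n : ℕ} (φ : L.BoundedFormula α n) :
    @FirstOrder.Language.Sentence.Realize (LR L) M (graphStr s) (AxF φ) := by
  let _ := graphStr s
  induction φ with
  | falsum => exact FirstOrder.Language.BoundedFormula.realize_top.2 trivial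
  | equal t u =>
    unfold AxF
    exact (realize_inf' (graphStr s) _ _).2 ⟨axT_graph s t, axT_graph s u⟩
  | rel R ts =>
    unfold AxF
    exact FirstOrder.Language.BoundedFormula.realize_iInf.2 fun i => axT_graph s (ts i)
  | imp a b iha ihb =>
    unfold AxF
    exact (realize_inf' (graphStr s) _ _).2 ⟨iha, ihb⟩
  | all a ih =>
    unfold AxF
    exact ih

/-- every spectrum is the spectrum of a relational sentence -/
theorem spec_elim (φ : L.Sentence) : spec (AxF φ ⊓ (tau φ : (LR L).Sentence)) = spec φ := by
  ext n
  constructor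
  · rintro ⟨hn, M, s', hc, hr⟩
    have nM : Nonempty M := by
      by_contra h
      rw [not_nonempty_iff] at h
      rw [Nat.card_of_isEmpty] at hc
      omega
    rw [realize_inf'] at hr
    refine ⟨hn, M, rebuild s', hc, ?_⟩
    let _ := rebuild s'
    exact (realize_tau (s := rebuild s') (s' := s') (fun _ _ => Iff.rfl) φ
      (fok_rebuild s' φ hr.1) default default).1 hr.2
  · rintro ⟨hn, M, s, hc, hr⟩
    refine ⟨hn, M, graphStr s, hc, ?_⟩
    rw [realize_inf']
    exact ⟨axF_graph s φ, (realize_tau (s := s) (s' := graphStr s) (fun _ _ => Iff.rfl) φ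
      (fok_graph s φ) default default).2 hr⟩

end Pool.Agent.H998.AS
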