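import Pool.Agent.H998.AS.Types
set_option autoImplicit false
set_option linter.unusedSectionVars false

/-! Guarded formulas are local. -/

namespace Pool.Agent.H998.AS
open FirstOrder

variable {L : FirstOrder.Language.{0, 0}}

/-- realization with named structure, in the variables `x_0, …, x_{n-1}`. -/
def Rz {M : Type} (s : L.Structure M) {n : ℕ} (φ : L.BoundedFormula Empty n) (v : Fin n → M) : Prop :=
  @FirstOrder.Language.BoundedFormula.Realize L M s Empty n φ (fun e => e.elim) v

theorem Rz.falsum {M : Type} (s : L.Structure M) {n : ℕ} (v : Fin n → M) :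
    Rz s (FirstOrder.Language.BoundedFormula.falsum (L := L) (n := n)) v ↔ False := Iff.rfl

theorem Rz.equal {M : Type} (s : L.Structure M) {n : ℕ} (t₁ t₂ : L.Term (Empty ⊕ Fin n))
    (v : Fin n → M) :
    Rz s (FirstOrder.Language.BoundedFormula.equal t₁ t₂) v ↔
      @FirstOrder.Language.Term.realize L M s _ (Sum.elim (fun e => e.elim) v) t₁ =
        @FirstOrder.Language.Term.realize L M s _ (Sum.elim (fun e => e.elim) v) t₂ := Iff.rfl

theorem Rz.rel {M : Type} (s : L.Structure M) {n l : ℕ} (R : L.Relations l)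
    (ts : Fin l → L.Term (Empty ⊕ Fin n)) (v : Fin n → M) :
    Rz s (FirstOrder.Language.BoundedFormula.rel R ts) v ↔
      s.RelMap R (fun i => @FirstOrder.Language.Term.realize L M s _
        (Sum.elim (fun e => e.elim) v) (ts i)) := Iff.rfl

theorem Rz.imp {M : Type} (s : L.Structure M) {n : ℕ} (φ ψ : L.BoundedFormula Empty n)
    (v : Fin n → M) :
    Rz s (FirstOrder.Language.BoundedFormula.imp φ ψ) v ↔ (Rz s φ v → Rz s ψ v) := Iff.rfl

theorem Rz.all {M : Type} (s : L.Structure M) {n : ℕ} (φ : L.BoundedFormula Empty (n + 1))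
    (v : Fin n → M) :
    Rz s (FirstOrder.Language.BoundedFormula.all φ) v ↔ ∀ x, Rz s φ (Fin.snoc v x) := Iff.rfl

/-- a closed embedding: an isomorphism onto a union of connected components -/
structure ClosedEmb {M K : Type} (sM : L.Structure M) (sK : L.Structure K) (f : M → K) : Prop where
  inj : Function.Injective f
  rel : ∀ {l : ℕ} (R : L.Relations l) (v : Fin l → M), 0 < l →
    (sK.RelMap R (fun i => f (v i)) ↔ sM.RelMap R v)
  closed : ∀ {l : ℕ} (R : L.Relations l) (w : Fin l → K), sK.RelMap R w → ∀ i j,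
    w i ∈ Set.range f → w j ∈ Set.range f

variable [L.IsRelational]

theorem ClosedEmb.inl {M N : Type} (sM : L.Structure M) (sN : L.Structure N) :
    ClosedEmb sM (sumStr sM sN) Sum.inl where
  inj := Sum.inl_injective
  rel := by
    intro l R v hl
    constructor
    · rintro (⟨y, hy, h⟩ | ⟨y, hy, h⟩)
      · have : v = y := by
          funext i
          exact Sum.inl_injective (congrFun hy i)
        rwa [this]
      · have := congrFun hy ⟨0, hl⟩
        cases this
    · intro h
      exact Or.inl ⟨v, rfl, h⟩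
  closed := by
    intro l R w h i j hi
    rcases h with ⟨y, hy, h⟩ | ⟨y, hy, h⟩
    · rw [hy]; exact ⟨y j, rfl⟩
    · obtain ⟨a, ha⟩ := hi
      rw [hy] at ha
      cases ha

theorem ClosedEmb.inr {M N : Type} (sM : L.Structure M) (sN : L.Structure N) :
    ClosedEmb sN (sumStr sM sN) Sum.inr where
  inj := Sum.inr_injective
  rel := by
    intro l R v hl
    constructor
    · rintro (⟨y, hy, h⟩ | ⟨y, hy, h⟩)
      · have := congrFun hy ⟨0, hl⟩
        cases this
      · have : v = y := by
          funext i
          exact Sum.inr_injective (congrFun hy i)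
        rwa [this]
    · intro h
      exact Or.inr ⟨v, rfl, h⟩
  closed := by
    intro l R w h i j hi
    rcases h with ⟨y, hy, h⟩ | ⟨y, hy, h⟩
    · obtain ⟨a, ha⟩ := hi
      rw [hy] at ha
      cases ha
    · rw [hy]; exact ⟨y j, rfl⟩

theorem term_map {M K : Type} (sM : L.Structure M) (sK : L.Structure K) (f : M → K) {n : ℕ}
    (v : Fin n → M) (t : L.Term (Empty ⊕ Fin n)) :
    @FirstOrder.Language.Term.realize L K sK _ (Sum.elim (fun e => e.elim) (fun i => f (v i))) t =
      f (@FirstOrder.Language.Term.realize L M sM _ (Sum.elim (fun e => e.elim) v) t) := by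
  cases t with
  | var i =>
    rcases i with e | i
    · exact e.elim
    · rfl
  | func g _ => exact isEmptyElim g

theorem snoc_map {M K : Type} (f : M → K) {n : ℕ} (v : Fin n → M) (y : M) :
    (Fin.snoc (fun i => f (v i)) (f y) : Fin (n + 1) → K) =
      fun i => f ((Fin.snoc v y : Fin (n + 1) → M) i) := by
  funext i
  refine Fin.lastCases ?_ (fun i => ?_) i
  · rw [Fin.snoc_last, Fin.snoc_last]
  · rw [Fin.snoc_castSucc, Fin.snoc_castSucc]

/-- guarded formulas are invariant under closed embeddings -/
theorem Guarded.closedEmb {M K : Type} {sM : L.Structure M} {sK : L.Structure K} {f : M → K}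
    (hf : ClosedEmb sM sK f) {n : ℕ} {φ : L.BoundedFormula Empty n} (h : Guarded φ) :
    ∀ v : Fin n → M, Rz sK φ (fun i => f (v i)) ↔ Rz sM φ v := by
  induction h with
  | falsum => intro v; exact Iff.rfl
  | equal t₁ t₂ =>
    intro v
    rw [Rz.equal, Rz.equal, term_map sM sK, term_map sM sK]
    exact ⟨fun h => hf.inj h, fun h => by rw [h]⟩
  | rel hl R ts =>
    intro v
    rw [Rz.rel, Rz.rel]
    simp only [term_map sM sK]
    exact hf.rel R _ hl
  | imp h₁ h₂ ih₁ ih₂ =>
    intro v
    rw [Rz.imp, Rz.imp, ih₁ v, ih₂ v]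
  | @all n l R ts hi hj φ h ih =>
    intro v
    obtain ⟨i, hi⟩ := hi
    obtain ⟨j, k, hj⟩ := hj
    have hl : 0 < l := lt_of_le_of_lt (Nat.zero_le _) i.isLt
    rw [Rz.all, Rz.all]
    have key : ∀ y : M, (Rz sK (FirstOrder.Language.BoundedFormula.imp
        (FirstOrder.Language.BoundedFormula.rel R ts) φ) (Fin.snoc (fun i => f (v i)) (f y)) ↔
        Rz sM (FirstOrder.Language.BoundedFormula.imp
        (FirstOrder.Language.BoundedFormula.rel R ts) φ) (Fin.snoc v y)) := by
      intro y
      rw [snoc_map, Rz.imp, Rz.imp, ih, Rz.rel, Rz.rel]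
      simp only [term_map sM sK]
      rw [hf.rel R _ hl]
    constructor
    · intro H y
      exact (key y).1 (H (f y))
    · intro H z
      rw [Rz.imp]
      intro hz
      have hz' := hz
      rw [Rz.rel] at hz'
      have hc := hf.closed R _ hz' j i
      simp only [hi, hj] at hc
      have h1 : (@FirstOrder.Language.Term.realize L K sK _ (Sum.elim (fun e => Empty.elim e)
          (Fin.snoc (fun i => f (v i)) z : Fin (n + 1) → K))
          (FirstOrder.Language.Term.var (Sum.inr k.castSucc) : L.Term (Empty ⊕ Fin (n + 1)))) =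
            f (v k) := by
        show (Fin.snoc (fun i => f (v i)) z : Fin (n + 1) → K) k.castSucc = _
        rw [Fin.snoc_castSucc]
      have h2 : (@FirstOrder.Language.Term.realize L K sK _ (Sum.elim (fun e => Empty.elim e)
          (Fin.snoc (fun i => f (v i)) z : Fin (n + 1) → K))
          (FirstOrder.Language.Term.var (Sum.inr (Fin.last n)) : L.Term (Empty ⊕ Fin (n + 1)))) =
            z := by
        show (Fin.snoc (fun i => f (v i)) z : Fin (n + 1) → K) (Fin.last n) = _
        rw [Fin.snoc_last]
      rw [h1, h2] at hc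
      obtain ⟨y, rfl⟩ := hc ⟨v k, rfl⟩
      exact (key y).2 (H y) hz

theorem Guarded.isLocal {θ : L.BoundedFormula Empty 1} (h : Guarded θ) : IsLocal θ := by
  intro M N _ _ sM sN
  exact ⟨fun a => h.closedEmb (ClosedEmb.inl sM sN) (fun _ => a),
    fun b => h.closedEmb (ClosedEmb.inr sM sN) (fun _ => b)⟩

end Pool.Agent.H998.AS
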