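import Pool.Agent.H998.AS.Types
set_option autoImplicit false

/-! Ultimately periodic sets. -/

namespace Pool.Agent.H998.AS

def UP (S : Set ℕ) : Prop := ∃ N₀ M : ℕ, 0 < M ∧ ∀ n, N₀ ≤ n → (n ∈ S ↔ n + M ∈ S)

theorem UP.step {S : Set ℕ} {N₀ M : ℕ} (h : ∀ n, N₀ ≤ n → (n ∈ S ↔ n + M ∈ S)) (k : ℕ) :
    ∀ n, N₀ ≤ n → (n ∈ S ↔ n + M * k ∈ S) := by
  induction k with
  | zero => intro n _; simp
  | succ k ih =>
    intro n hn
    rw [ih n hn, h (n + M * k) (by omega)]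
    rw [Nat.mul_succ, Nat.add_assoc]

theorem UP.union {S T : Set ℕ} (hS : UP S) (hT : UP T) : UP (S ∪ T) := by
  obtain ⟨N₁, M₁, h₁, hS⟩ := hS
  obtain ⟨N₂, M₂, h₂, hT⟩ := hT
  refine ⟨N₁ + N₂, M₁ * M₂, Nat.mul_pos h₁ h₂, fun n hn => ?_⟩
  have e1 := UP.step hS M₂ n (by omega)
  have e2 := UP.step hT M₁ n (by omega)
  rw [Set.mem_union, Set.mem_union, e1, e2, Nat.mul_comm M₂ M₁]

theorem UP.compl {S : Set ℕ} (hS : UP S) : UP {n | n ∉ S} := by
  obtain ⟨N₁, M₁, h₁, hS⟩ := hS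
  refine ⟨N₁, M₁, h₁, fun n hn => ?_⟩
  show ¬ _ ↔ ¬ _
  rw [hS n hn]

theorem UP.iUnion {k : ℕ} (A : Fin k → Set ℕ) (h : ∀ i, UP (A i)) : UP (⋃ i, A i) := by
  induction k with
  | zero =>
    refine ⟨0, 1, one_pos, fun n _ => ?_⟩
    simp
  | succ k ih =>
    have e : (⋃ i, A i) = A 0 ∪ ⋃ i : Fin k, A i.succ := by
      ext n
      simp only [Set.mem_iUnion, Set.mem_union, Fin.exists_fin_succ]
    rw [e]
    exact (h 0).union (ih _ fun i => h i.succ)

theorem mul_mem {A : Set ℕ} (h : AddClosed A) {m : ℕ} (hm : m ∈ A) :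
    ∀ k n, n ∈ A → n + m * k ∈ A := by
  intro k
  induction k with
  | zero => intro n hn; simpa using hn
  | succ k ih =>
    intro n hn
    rw [Nat.mul_succ, ← Nat.add_assoc]
    exact h _ (ih n hn) _ hm

theorem AddClosed.up {A : Set ℕ} (h : AddClosed A) (hpos : ∀ n ∈ A, 0 < n) : UP A := by
  classical
  by_cases hA : A.Nonempty
  · obtain ⟨m, hm⟩ := hA
    have hm0 := hpos m hm
    -- a witness in each attained residue class
    have hw : ∃ w : ℕ → ℕ, ∀ r, (∃ a ∈ A, a % m = r) → (w r ∈ A ∧ w r % m = r) := by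
      refine ⟨fun r => if hr : ∃ a ∈ A, a % m = r then hr.choose else 0, fun r hr => ?_⟩
      simp only [dif_pos hr]
      exact hr.choose_spec
    obtain ⟨w, hw⟩ := hw
    refine ⟨∑ r ∈ Finset.range m, w r, m, hm0, fun n hn => ⟨fun hnA => h n hnA m hm, fun hnA => ?_⟩⟩
    have hr := hw (n % m) ⟨n + m, hnA, by simp⟩
    have hle : w (n % m) ≤ n := by
      refine le_trans ?_ hn
      exact Finset.single_le_sum (f := w) (fun i _ => Nat.zero_le _)
        (Finset.mem_range.2 (Nat.mod_lt n hm0))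
    have hdvd : m ∣ n - w (n % m) := (Nat.modEq_iff_dvd' hle).1 hr.2
    obtain ⟨c, hc⟩ := hdvd
    have := mul_mem h hm c _ hr.1
    rw [← hc] at this
    rwa [Nat.add_sub_cancel' hle] at this
  · refine ⟨0, 1, one_pos, fun n _ => ?_⟩
    rw [Set.not_nonempty_iff_eq_empty] at hA
    simp [hA]

end Pool.Agent.H998.AS
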