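import Pool.Agent.H998.AS.Per
set_option autoImplicit false

/-! Ultimately periodic sets are spectra. -/

namespace Pool.Agent.H998.AS
open FirstOrder

inductive AFun : ℕ → Type
  | c (i : ℕ) : AFun 0
  | s (j : ℕ) : AFun 1

def LA : FirstOrder.Language.{0, 0} := ⟨AFun, fun _ => Empty⟩

abbrev cT (i : ℕ) : LA.Term (Empty ⊕ Fin 1) :=
  FirstOrder.Language.Term.func (L := LA) (l := 0) (AFun.c i) (fun k => k.elim0)

abbrev sT (j : ℕ) (t : LA.Term (Empty ⊕ Fin 1)) : LA.Term (Empty ⊕ Fin 1) :=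
  FirstOrder.Language.Term.func (L := LA) (l := 1) (AFun.s j) (fun _ => t)

abbrev xT : LA.Term (Empty ⊕ Fin 1) := FirstOrder.Language.Term.var (Sum.inr 0)

noncomputable def matr (a m : ℕ) : LA.BoundedFormula Empty 1 :=
  (FirstOrder.Language.BoundedFormula.iInf fun p : {p : Fin a × Fin a // p.1 ≠ p.2} =>
      ((cT p.1.1).bdEqual (cT p.1.2)).not) ⊓
    ((FirstOrder.Language.BoundedFormula.iSup fun i : Fin a => xT.bdEqual (cT i)) ⊔
      ((FirstOrder.Language.BoundedFormula.iSup fun j : Fin m => (sT j xT).bdEqual xT) ⊓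
        ((FirstOrder.Language.BoundedFormula.iInf fun p : {p : Fin m × Fin m // p.1 ≠ p.2} =>
          ((sT p.1.1 xT).bdEqual (sT p.1.2 xT)).not) ⊓
        ((FirstOrder.Language.BoundedFormula.iInf fun p : Fin m × Fin m =>
          ((sT p.1 (sT p.2 xT)).bdEqual (sT p.1 xT))) ⊓
        (FirstOrder.Language.BoundedFormula.iInf fun p : Fin m × Fin a =>
          ((sT p.1 xT).bdEqual (cT p.2)).not)))))

def Sem (a m : ℕ) {M : Type} (c : ℕ → M) (s : ℕ → M → M) : Prop :=
  (∀ i j : Fin a, i ≠ j → c i ≠ c j) ∧ ∀ x, (∃ i : Fin a, x = c i) ∨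
    ((∃ j : Fin m, s j x = x) ∧ (∀ j j' : Fin m, j ≠ j' → s j x ≠ s j' x) ∧
      (∀ j j' : Fin m, s j (s j' x) = s j x) ∧ ∀ (j : Fin m) (i : Fin a), s j x ≠ c i)

def cOf {M : Type} (S : LA.Structure M) (i : ℕ) : M :=
  S.funMap (n := 0) (AFun.c i) (fun k => k.elim0)
def sOf {M : Type} (S : LA.Structure M) (j : ℕ) (x : M) : M :=
  S.funMap (n := 1) (AFun.s j) (fun _ => x)

theorem realize_matr (a m : ℕ) {M : Type} (S : LA.Structure M) (v : Empty → M) (x : Fin 1 → M) :
    (matr a m).Realize v x ↔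
      ((∀ i j : Fin a, i ≠ j → cOf S i ≠ cOf S j) ∧ ((∃ i : Fin a, x 0 = cOf S i) ∨
    ((∃ j : Fin m, sOf S j (x 0) = x 0) ∧ (∀ j j' : Fin m, j ≠ j' → sOf S j (x 0) ≠ sOf S j' (x 0)) ∧
      (∀ j j' : Fin m, sOf S j (sOf S j' (x 0)) = sOf S j (x 0)) ∧
        ∀ (j : Fin m) (i : Fin a), sOf S j (x 0) ≠ cOf S i))) := by
  have hc : ∀ i : ℕ, (cT i).realize (Sum.elim v x) = cOf S i := by
    intro i
    unfold cOf
    show S.funMap _ _ = _
    congr 1
    funext k; exact k.elim0
  have hx : xT.realize (Sum.elim v x) = x 0 := rfl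
  have hs : ∀ (j : ℕ) (t : LA.Term (Empty ⊕ Fin 1)), (sT j t).realize (Sum.elim v x) =
      sOf S j (t.realize (Sum.elim v x)) := by
    intro j t; rfl
  unfold matr
  simp only [FirstOrder.Language.BoundedFormula.realize_inf,
    FirstOrder.Language.BoundedFormula.realize_sup,
    FirstOrder.Language.BoundedFormula.realize_iInf,
    FirstOrder.Language.BoundedFormula.realize_iSup,
    FirstOrder.Language.BoundedFormula.realize_not,
    FirstOrder.Language.BoundedFormula.realize_bdEqual, hc, hx, hs, Subtype.forall, Prod.forall]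

theorem card_of_sem {a m : ℕ} {M : Type} [Finite M] {c : ℕ → M} {s : ℕ → M → M}
    (h : Sem a m c s) : ∃ k, Nat.card M = a + m * k := by
  classical
  obtain ⟨h1, h2⟩ := h
  have hC : Nat.card {x : M // ∃ i : Fin a, x = c i} = a := by
    have e : Fin a ≃ {x : M // ∃ i : Fin a, x = c i} := by
      refine Equiv.ofBijective (fun i => ⟨c i, i, rfl⟩) ⟨?_, ?_⟩
      · intro i j hij
        by_contra hne
        exact h1 i j hne (congrArg Subtype.val hij)
      · rintro ⟨x, i, rfl⟩
        exact ⟨i, rfl⟩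
    rw [← Nat.card_congr e, Nat.card_fin]
  have hsum : Nat.card M = Nat.card {x : M // ∃ i : Fin a, x = c i} +
      Nat.card {x : M // ¬ ∃ i : Fin a, x = c i} := by
    rw [← Nat.card_sum]
    exact Nat.card_congr (Equiv.sumCompl _).symm
  rcases Nat.eq_zero_or_pos m with hm | hm
  · subst hm
    refine ⟨0, ?_⟩
    have : IsEmpty {x : M // ¬ ∃ i : Fin a, x = c i} := by
      constructor
      rintro ⟨x, hx⟩
      rcases h2 x with h | ⟨⟨j, _⟩, _⟩
      · exact hx h
      · exact j.elim0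
    rw [hsum, hC, Nat.card_of_isEmpty]
  · let z : Fin m := ⟨0, hm⟩
    have key : ∀ x : M, (¬ ∃ i : Fin a, x = c i) → ((∃ j : Fin m, s j x = x) ∧
        (∀ j j' : Fin m, j ≠ j' → s j x ≠ s j' x) ∧
        (∀ j j' : Fin m, s j (s j' x) = s j x) ∧ ∀ (j : Fin m) (i : Fin a), s j x ≠ c i) := by
      intro x hx
      rcases h2 x with h | h
      · exact absurd h hx
      · exact h
    let B := {x : M // (¬ ∃ i : Fin a, x = c i) ∧ s z x = x}
    have e : (B × Fin m) ≃ {x : M // ¬ ∃ i : Fin a, x = c i} := by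
      refine Equiv.ofBijective (fun p => ⟨s p.2 p.1.1, ?_⟩) ⟨?_, ?_⟩
      · rintro ⟨i, hi⟩
        exact (key _ p.1.2.1).2.2.2 p.2 i hi
      · rintro ⟨⟨b, hb1, hb2⟩, j⟩ ⟨⟨b', hb1', hb2'⟩, j'⟩ hE
        have hE' : s j b = s j' b' := congrArg Subtype.val hE
        have e1 : s z (s j b) = b := by rw [(key b hb1).2.2.1 z j, hb2]
        have e2 : s z (s j' b') = b' := by rw [(key b' hb1').2.2.1 z j', hb2']
        have hbb : b = b' := by rw [← e1, ← e2, hE']
        subst hbb
        have hjj : j = j' := by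
          by_contra hne
          exact (key b hb1).2.1 j j' hne hE'
        subst hjj
        rfl
      · rintro ⟨x, hx⟩
        obtain ⟨⟨j, hj⟩, _, h3, h4⟩ := key x hx
        refine ⟨(⟨s z x, ?_, ?_⟩, j), ?_⟩
        · rintro ⟨i, hi⟩
          exact h4 z i hi
        · exact h3 z z
        · apply Subtype.ext
          show s j (s z x) = x
          rw [h3 j z, hj]
    refine ⟨Nat.card B, ?_⟩
    rw [hsum, hC, ← Nat.card_congr e, Nat.card_prod, Nat.card_fin, Nat.mul_comm]

/-- the model of size `a + m * k` -/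
def modC (a m k : ℕ) (ha : 0 < a) (i : ℕ) : Fin a ⊕ (Fin k × Fin m) :=
  if h : i < a then Sum.inl ⟨i, h⟩ else Sum.inl ⟨0, ha⟩
def modS (a m k : ℕ) (j : ℕ) : Fin a ⊕ (Fin k × Fin m) → Fin a ⊕ (Fin k × Fin m)
  | Sum.inl x => Sum.inl x
  | Sum.inr (b, l) => if h : j < m then Sum.inr (b, ⟨j, h⟩) else Sum.inr (b, l)

theorem modS_inr (a m k : ℕ) (j : Fin m) (b : Fin k) (l : Fin m) :
    modS a m k j (Sum.inr (b, l)) = Sum.inr (b, j) := by
  simp only [modS, j.isLt, dite_true]

theorem modC_fin (a m k : ℕ) (ha : 0 < a) (i : Fin a) : modC a m k ha i = Sum.inl i := by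
  simp only [modC, i.isLt, dite_true]

theorem sem_mod (a m k : ℕ) (ha : 0 < a) : Sem a m (modC a m k ha) (modS a m k) := by
  refine ⟨fun i j hij => ?_, fun x => ?_⟩
  · rw [modC_fin, modC_fin]
    intro h; exact hij (Sum.inl.inj h)
  · rcases x with x | ⟨b, l⟩
    · left
      exact ⟨x, (modC_fin a m k ha x).symm⟩
    · right
      refine ⟨⟨l, modS_inr a m k l b l⟩, fun j j' hjj h => ?_, fun j j' => ?_, fun j i h => ?_⟩
      · rw [modS_inr, modS_inr] at h
        exact hjj (Prod.ext_iff.1 (Sum.inr.inj h)).2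
      · rw [modS_inr, modS_inr, modS_inr]
      · rw [modS_inr, modC_fin] at h
        cases h

@[reducible] def strOf {M : Type} (c : ℕ → M) (s : ℕ → M → M) : LA.Structure M where
  funMap := fun {n} (f : AFun n) x => match n, f, x with
    | _, AFun.c i, _ => c i
    | _, AFun.s j, x => s j (x 0)
  RelMap := fun r _ => Empty.elim r

noncomputable def progS (a m : ℕ) : LA.Sentence := (matr a m).all

theorem realize_progS (a m : ℕ) {M : Type} [hM : Nonempty M] (S : LA.Structure M) :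
    (progS a m).Realize M ↔ Sem a m (cOf S) (sOf S) := by
  unfold progS FirstOrder.Language.Sentence.Realize FirstOrder.Language.Formula.Realize
  rw [FirstOrder.Language.BoundedFormula.realize_all]
  have h0 : ∀ x : M, (Fin.snoc (default : Fin 0 → M) x : Fin 1 → M) 0 = x := by
    intro x
    exact Fin.snoc_last (α := fun _ => M) x (default : Fin 0 → M)
  simp only [realize_matr a m S, h0]
  constructor
  · intro h
    exact ⟨(h hM.some).1, fun x => (h x).2⟩
  · rintro ⟨h1, h2⟩ x
    exact ⟨h1, h2 x⟩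

theorem spec_progS (a m : ℕ) (ha : 0 < a) : spec (progS a m) = {n | ∃ k, n = a + m * k} := by
  ext n
  constructor
  · rintro ⟨hn, M, S, hc, hr⟩
    have fM : Finite M := Nat.finite_of_card_ne_zero (by omega)
    have nM : Nonempty M := by
      by_contra h
      rw [not_nonempty_iff] at h
      rw [Nat.card_of_isEmpty] at hc
      omega
    obtain ⟨k, hk⟩ := card_of_sem ((realize_progS a m S).1 hr)
    exact ⟨k, by omega⟩
  · rintro ⟨k, rfl⟩
    refine ⟨by omega, Fin a ⊕ (Fin k × Fin m), strOf (modC a m k ha) (modS a m k), ?_, ?_⟩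
    · rw [Nat.card_sum, Nat.card_prod, Nat.card_fin, Nat.card_fin, Nat.card_fin, Nat.mul_comm]
    · have : Nonempty (Fin a ⊕ (Fin k × Fin m)) := ⟨Sum.inl ⟨0, ha⟩⟩
      refine (realize_progS a m (strOf (modC a m k ha) (modS a m k))).2 ?_
      exact sem_mod a m k ha

theorem UP.spectrum {T : Set ℕ} (hT : UP T) (hpos : ∀ n ∈ T, 0 < n) :
    ∃ ψ : LA.Sentence, spec ψ = T := by
  classical
  obtain ⟨N, M, hM, h⟩ := hT
  let F : Fin (N + M) → LA.Sentence := fun i =>
    if (i : ℕ) ∈ T then progS i (if (i : ℕ) < N then 0 else M) else ⊥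
  refine ⟨FirstOrder.Language.BoundedFormula.iSup F, ?_⟩
  have e : spec (FirstOrder.Language.BoundedFormula.iSup F) = ⋃ i, spec (F i) := by
    ext n
    simp only [spec, Set.mem_ofPred_eq, Set.mem_iUnion]
    constructor
    · rintro ⟨hn, A, S, hc, hr⟩
      have hr' := (FirstOrder.Language.BoundedFormula.realize_iSup).1 hr
      obtain ⟨i, hi⟩ := hr'
      exact ⟨i, hn, A, S, hc, hi⟩
    · rintro ⟨i, hn, A, S, hc, hi⟩
      exact ⟨hn, A, S, hc, (FirstOrder.Language.BoundedFormula.realize_iSup).2 ⟨i, hi⟩⟩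
  rw [e]
  have hF : ∀ i : Fin (N + M), (i : ℕ) ∈ T → spec (F i) =
      {n | ∃ k, n = (i : ℕ) + (if (i : ℕ) < N then 0 else M) * k} := by
    intro i hi
    simp only [F, if_pos hi]
    exact spec_progS _ _ (hpos _ hi)
  have hF' : ∀ i : Fin (N + M), (i : ℕ) ∉ T → spec (F i) = ∅ := by
    intro i hi
    simp only [F, if_neg hi]
    ext n
    simp only [spec, Set.mem_ofPred_eq, Set.mem_empty_iff_false, iff_false]
    rintro ⟨_, A, S, _, hr⟩
    exact hr
  ext n
  simp only [Set.mem_iUnion]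
  constructor
  · rintro ⟨i, hi⟩
    by_cases hiT : (i : ℕ) ∈ T
    · rw [hF i hiT] at hi
      obtain ⟨k, rfl⟩ := hi
      split_ifs with hlt
      · simpa using hiT
      · exact (UP.step h k i (by omega)).1 hiT
    · rw [hF' i hiT] at hi
      exact absurd hi (Set.notMem_empty _)
  · intro hn
    by_cases hlt : n < N
    · refine ⟨⟨n, by omega⟩, ?_⟩
      rw [hF _ (by exact hn)]
      exact ⟨0, by simp⟩
    · -- write n = (N + (n - N) % M) + M * k
      have hlt' : (n - N) % M < M := Nat.mod_lt _ hM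
      have hdm := Nat.mod_add_div (n - N) M
      have hnn : n = (N + (n - N) % M) + M * ((n - N) / M) := by omega
      have hmem : N + (n - N) % M ∈ T := by
        rw [UP.step h ((n - N) / M) (N + (n - N) % M) (by omega), ← hnn]
        exact hn
      refine ⟨⟨N + (n - N) % M, by omega⟩, ?_⟩
      rw [hF _ (by exact hmem)]
      refine ⟨(n - N) / M, ?_⟩
      rw [if_neg (by simp)]
      exact hnn

end Pool.Agent.H998.AS
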