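import Pool.Agent.H998.AS.Guard
set_option autoImplicit false
set_option linter.unusedSectionVars false

/-! With one more sentence the guarded one-witness sentences have all spectra. -/

namespace Pool.Agent.H998.AS
open FirstOrder

/-- relation symbols of the extended language -/
inductive ExRel (L : FirstOrder.Language.{0, 0}) : ℕ → Type
  | E : ExRel L 2
  | P : ExRel L 1
  | old {l : ℕ} (R : L.Relations l) : ExRel L (l + 1)

/-- the extended language: a binary `E`, a unary `P`, and for each `l`-ary `R` of `L` an
`(l+1)`-ary symbol -/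
@[reducible] def Ex (L : FirstOrder.Language.{0, 0}) : FirstOrder.Language.{0, 0} := ⟨fun _ => Empty, ExRel L⟩

instance (L : FirstOrder.Language.{0, 0}) : (Ex L).IsRelational := fun _ => inferInstanceAs (IsEmpty Empty)

/-- the sentence `∀ x ∀ y, E(x, y)` -/
def allE (L : FirstOrder.Language.{0, 0}) : (Ex L).Sentence :=
  FirstOrder.Language.BoundedFormula.all (FirstOrder.Language.BoundedFormula.all
    (FirstOrder.Language.BoundedFormula.rel (L := Ex L) (n := 2) (ExRel.E)
      (fun i => FirstOrder.Language.Term.var (Sum.inr i))))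

/-- the sentence `∀ x ∀ y, P(x) → P(y) → x = y` -/
def atMostOne (L : FirstOrder.Language.{0, 0}) : (Ex L).Sentence :=
  FirstOrder.Language.BoundedFormula.all (FirstOrder.Language.BoundedFormula.all
    (FirstOrder.Language.BoundedFormula.imp
      (FirstOrder.Language.BoundedFormula.rel (L := Ex L) (n := 2) (ExRel.P)
        (fun _ => FirstOrder.Language.Term.var (Sum.inr 0)))
      (FirstOrder.Language.BoundedFormula.imp
        (FirstOrder.Language.BoundedFormula.rel (L := Ex L) (n := 2) (ExRel.P)
          (fun _ => FirstOrder.Language.Term.var (Sum.inr 1)))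
        (FirstOrder.Language.BoundedFormula.equal
          (FirstOrder.Language.Term.var (Sum.inr 0)) (FirstOrder.Language.Term.var (Sum.inr 1))))))

variable {L : FirstOrder.Language.{0, 0}} [L.IsRelational]

/-- index of the variable that a term is -/
def tv {n : ℕ} : L.Term (Empty ⊕ Fin n) → Fin n
  | FirstOrder.Language.Term.var (Sum.inl e) => e.elim
  | FirstOrder.Language.Term.var (Sum.inr i) => i
  | FirstOrder.Language.Term.func f _ => isEmptyElim f

theorem tv_realize {M : Type} (s : L.Structure M) {n : ℕ} (v : Fin n → M)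
    (t : L.Term (Empty ⊕ Fin n)) :
    @FirstOrder.Language.Term.realize L M s _ (Sum.elim (fun e => e.elim) v) t = v (tv t) := by
  cases t with
  | var i =>
    rcases i with e | i
    · exact e.elim
    · rfl
  | func g _ => exact isEmptyElim g

abbrev vT (L : FirstOrder.Language.{0, 0}) {n : ℕ} (i : Fin n) : (Ex L).Term (Empty ⊕ Fin n) :=
  FirstOrder.Language.Term.var (Sum.inr i)

/-- relativisation to the `E`-neighbours of the variable `x_0` -/
def tr : ∀ {n : ℕ}, L.BoundedFormula Empty n → (Ex L).BoundedFormula Empty (n + 1)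
  | _, FirstOrder.Language.BoundedFormula.falsum => FirstOrder.Language.BoundedFormula.falsum
  | _, FirstOrder.Language.BoundedFormula.equal t₁ t₂ =>
      FirstOrder.Language.BoundedFormula.equal (vT L (tv t₁).succ) (vT L (tv t₂).succ)
  | _, FirstOrder.Language.BoundedFormula.rel R ts =>
      FirstOrder.Language.BoundedFormula.rel (L := Ex L) (ExRel.old R)
        (Fin.cons (vT L 0) (fun i => vT L (tv (ts i)).succ))
  | _, FirstOrder.Language.BoundedFormula.imp a b =>
      FirstOrder.Language.BoundedFormula.imp (tr a) (tr b)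
  | n, FirstOrder.Language.BoundedFormula.all a =>
      FirstOrder.Language.BoundedFormula.all (FirstOrder.Language.BoundedFormula.imp
        (FirstOrder.Language.BoundedFormula.rel (L := Ex L) (n := n + 2) (ExRel.E)
          ![vT L 0, vT L (Fin.last (n + 1))]) (tr a))

theorem guarded_tr {n : ℕ} (φ : L.BoundedFormula Empty n) : Guarded (tr φ) := by
  induction φ with
  | falsum => exact Guarded.falsum
  | equal t₁ t₂ => exact Guarded.equal _ _
  | rel R ts => exact Guarded.rel (Nat.succ_pos _) _ _
  | imp a b iha ihb => exact Guarded.imp iha ihb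
  | @all n a ih =>
    exact Guarded.all (L := Ex L) (n := n + 1) ExRel.E ![vT L 0, vT L (Fin.last (n + 1))] ⟨1, rfl⟩ ⟨0, 0, rfl⟩ ih

/-- the `L`-structure seen from `x` -/
@[reducible] def seen {M : Type} (s : (Ex L).Structure M) (x : M) : L.Structure M where
  funMap := fun f _ => isEmptyElim f
  RelMap := fun {_} R v => s.RelMap (ExRel.old R) (Fin.cons x v)

theorem tr_iff {M : Type} (s : (Ex L).Structure M) (x : M)
    (hE : ∀ y : M, s.RelMap (n := 2) (ExRel.E (L := L)) ![x, y]) {n : ℕ} (φ : L.BoundedFormula Empty n) :
    ∀ v : Fin n → M, Rz s (tr φ) (Fin.cons x v) ↔ Rz (seen s x) φ v := by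
  induction φ with
  | falsum => intro v; exact Iff.rfl
  | equal t₁ t₂ =>
    intro v
    rw [tr, Rz.equal, Rz.equal, tv_realize (seen s x), tv_realize (seen s x)]
    exact Iff.rfl
  | rel R ts =>
    intro v
    rw [tr, Rz.rel, Rz.rel]
    simp only [tv_realize (seen s x)]
    have : (fun i => @FirstOrder.Language.Term.realize (Ex L) M s _
        (Sum.elim (fun e => Empty.elim e) (Fin.cons x v))
        ((Fin.cons (vT L 0) (fun i => vT L (tv (ts i)).succ) : Fin _ → _) i)) =
        (Fin.cons x (fun i => v (tv (ts i))) : Fin _ → M) := by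
      funext i
      refine Fin.cases ?_ (fun i => ?_) i
      · rfl
      · rfl
    rw [this]
    exact Iff.rfl
  | imp a b iha ihb =>
    intro v
    rw [tr, Rz.imp, Rz.imp, iha, ihb]
  | @all n a ih =>
    intro v
    rw [tr, Rz.all, Rz.all]
    refine forall_congr' fun z => ?_
    rw [Rz.imp, ← ih (Fin.snoc v z), Fin.cons_snoc_eq_snoc_cons]
    have : Rz s (FirstOrder.Language.BoundedFormula.rel (L := Ex L) (n := n + 2) (ExRel.E)
          ![vT L 0, vT L (Fin.last (n + 1))])
          (Fin.snoc (Fin.cons x v : Fin (n + 1) → M) z : Fin (n + 2) → M) := by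
      rw [Rz.rel]
      have e : (fun i => @FirstOrder.Language.Term.realize (Ex L) M s _
        (Sum.elim (fun e => Empty.elim e)
          (Fin.snoc (Fin.cons x v : Fin (n + 1) → M) z : Fin (n + 2) → M))
        ((![vT L 0, vT L (Fin.last (n + 1))] : Fin 2 → _) i)) = ![x, z] := by
        funext i
        fin_cases i
        · show (Fin.snoc (Fin.cons x v : Fin (n + 1) → M) z : Fin (n + 2) → M) (0 : Fin (n + 1)).castSucc = x
          rw [Fin.snoc_castSucc]; rfl
        · show (Fin.snoc (Fin.cons x v : Fin (n + 1) → M) z : Fin (n + 2) → M) (Fin.last (n + 1)) = z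
          rw [Fin.snoc_last]
      rw [e]
      exact hE z
    exact ⟨fun h => h this, fun h _ => h⟩

end Pool.Agent.H998.AS
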