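import Pool.Agent.H998.AS.Sharp
set_option autoImplicit false
set_option linter.unusedSectionVars false

/-! With one more sentence the guarded one-witness sentences have all spectra, continued. -/

namespace Pool.Agent.H998.AS
open FirstOrder

variable {L : FirstOrder.Language.{0, 0}} [L.IsRelational]

theorem sent_iff {L : FirstOrder.Language.{0, 0}} {M : Type} (s : L.Structure M) (φ : L.Sentence) (v : Fin 0 → M) :
    @FirstOrder.Language.Sentence.Realize L M s φ ↔ Rz s φ v := by
  unfold Rz FirstOrder.Language.Sentence.Realize FirstOrder.Language.Formula.Realize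
  have h1 : (default : Empty → M) = fun e => e.elim := by
    funext e; exact e.elim
  rw [h1, Subsingleton.elim (default : Fin 0 → M) v]

theorem holdsAt_tr {M : Type} (s : (Ex L).Structure M) (a : M)
    (hE : ∀ y : M, s.RelMap (n := 2) (ExRel.E (L := L)) ![a, y]) (φ : L.Sentence) :
    HoldsAt s (tr φ) a ↔ @FirstOrder.Language.Sentence.Realize L M (seen s a) φ := by
  rw [sent_iff (seen s a) φ Fin.elim0, ← tr_iff s a hE φ Fin.elim0]
  unfold HoldsAt Rz
  have : (fun _ => a : Fin 1 → M) = Fin.cons a (Fin.elim0 : Fin 0 → M) := by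
    funext i
    have hi : i = 0 := Subsingleton.elim _ _
    subst hi
    rfl
  rw [this]

theorem OneWitness.not {L : FirstOrder.Language.{0, 0}} {C : L.BoundedFormula Empty 1 → Prop} {φ : L.Sentence}
    (h : OneWitness C φ) : OneWitness C (FirstOrder.Language.BoundedFormula.not φ) :=
  OneWitness.imp h OneWitness.bot

theorem OneWitness.inf {L : FirstOrder.Language.{0, 0}} {C : L.BoundedFormula Empty 1 → Prop} {φ ψ : L.Sentence}
    (h : OneWitness C φ) (h' : OneWitness C ψ) : OneWitness C (φ ⊓ ψ) :=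
  (OneWitness.imp h h'.not).not

theorem OneWitness.sup {L : FirstOrder.Language.{0, 0}} {C : L.BoundedFormula Empty 1 → Prop} {φ ψ : L.Sentence}
    (h : OneWitness C φ) (h' : OneWitness C ψ) : OneWitness C (φ ⊔ ψ) :=
  OneWitness.imp h.not h'

theorem OneWitness.mono {L : FirstOrder.Language.{0, 0}} {C D : L.BoundedFormula Empty 1 → Prop}
    (hCD : ∀ θ, C θ → D θ) {φ : L.Sentence} (h : OneWitness C φ) : OneWitness D φ := by
  induction h with
  | ex θ h => exact OneWitness.ex θ (hCD θ h)
  | bot => exact OneWitness.bot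
  | imp _ _ ih₁ ih₂ => exact OneWitness.imp ih₁ ih₂

/-- `∀ x, tr φ (x)` -/
def uni (φ : L.Sentence) : (Ex L).Sentence :=
  FirstOrder.Language.BoundedFormula.not
    (FirstOrder.Language.BoundedFormula.ex (FirstOrder.Language.BoundedFormula.not (tr φ)))

theorem uni_oneWitness (φ : L.Sentence) : OneWitness Guarded (uni φ) :=
  (OneWitness.ex _ (Guarded.imp (guarded_tr φ) Guarded.falsum)).not

theorem realize_not' {L : FirstOrder.Language.{0, 0}} {M : Type} (s : L.Structure M) (φ : L.Sentence) :
    @FirstOrder.Language.Sentence.Realize L M s (FirstOrder.Language.BoundedFormula.not φ) ↔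
      ¬ @FirstOrder.Language.Sentence.Realize L M s φ := Iff.rfl

theorem realize_uni {M : Type} (s : (Ex L).Structure M) (φ : L.Sentence) :
    @FirstOrder.Language.Sentence.Realize (Ex L) M s (uni φ) ↔ ∀ a, HoldsAt s (tr φ) a := by
  unfold uni
  rw [realize_not', realize_ex_iff]
  have : ∀ a, HoldsAt s (FirstOrder.Language.BoundedFormula.not (tr φ)) a ↔ ¬ HoldsAt s (tr φ) a := by
    intro a; exact Iff.rfl
  simp only [this, not_exists, not_not]

theorem realize_inf' {L : FirstOrder.Language.{0, 0}} {M : Type} (s : L.Structure M) (φ ψ : L.Sentence) :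
    @FirstOrder.Language.Sentence.Realize L M s (φ ⊓ ψ) ↔
      (@FirstOrder.Language.Sentence.Realize L M s φ ∧ @FirstOrder.Language.Sentence.Realize L M s ψ) :=
  FirstOrder.Language.BoundedFormula.realize_inf

theorem realize_allE {M : Type} (s : (Ex L).Structure M) :
    @FirstOrder.Language.Sentence.Realize (Ex L) M s (allE L) ↔
      ∀ x y : M, s.RelMap (n := 2) (ExRel.E (L := L)) ![x, y] := by
  rw [sent_iff s (allE L) Fin.elim0]
  unfold allE
  simp only [Rz.all, Rz.rel]
  refine forall_congr' fun x => forall_congr' fun y => ?_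
  have : (fun i : Fin 2 => @FirstOrder.Language.Term.realize (Ex L) M s _
        (Sum.elim (fun e => Empty.elim e)
          (Fin.snoc (Fin.snoc (Fin.elim0 : Fin 0 → M) x : Fin 1 → M) y : Fin 2 → M))
        (FirstOrder.Language.Term.var (Sum.inr i))) = ![x, y] := by
    funext i
    fin_cases i
    · rfl
    · rfl
  rw [this]

theorem realize_atMostOne {M : Type} (s : (Ex L).Structure M) :
    @FirstOrder.Language.Sentence.Realize (Ex L) M s (atMostOne L) ↔
      ∀ x y : M, s.RelMap (n := 1) (ExRel.P (L := L)) (fun _ => x) →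
        s.RelMap (n := 1) (ExRel.P (L := L)) (fun _ => y) → x = y := by
  rw [sent_iff s (atMostOne L) Fin.elim0]
  unfold atMostOne
  simp only [Rz.all, Rz.rel, Rz.imp, Rz.equal]
  exact Iff.rfl

/-- the extension of an `L`-structure -/
@[reducible] def ext {M : Type} (s : L.Structure M) (p : M) : (Ex L).Structure M where
  funMap := fun f _ => Empty.elim f
  RelMap := fun {n} (R : ExRel L n) v => match n, R, v with
    | _, ExRel.E, _ => True
    | _, ExRel.P, v => v 0 = p
    | _, ExRel.old R, v => s.RelMap R (Fin.tail v)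

theorem seen_ext {M : Type} (s : L.Structure M) (p x : M) : seen (ext s p) x = s := by
  apply FirstOrder.Language.Structure.ext
  · funext n f
    exact isEmptyElim f
  · funext n R v
    have : (Fin.tail (Fin.cons x v : Fin (n + 1) → M) : Fin n → M) = v := Fin.tail_cons _ _
    show s.RelMap R (Fin.tail (Fin.cons x v : Fin (n + 1) → M)) = _
    rw [this]

theorem spec_allE (φ : L.Sentence) : spec (allE L ⊓ uni φ) = spec φ := by
  ext n
  constructor
  · rintro ⟨hn, M, s, hc, hr⟩
    have nM : Nonempty M := by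
      by_contra h
      rw [not_nonempty_iff] at h
      rw [Nat.card_of_isEmpty] at hc
      omega
    obtain ⟨a⟩ := nM
    rw [realize_inf', realize_allE, realize_uni] at hr
    exact ⟨hn, M, seen s a, hc, (holdsAt_tr s a (hr.1 a) φ).1 (hr.2 a)⟩
  · rintro ⟨hn, M, s, hc, hr⟩
    have nM : Nonempty M := by
      by_contra h
      rw [not_nonempty_iff] at h
      rw [Nat.card_of_isEmpty] at hc
      omega
    obtain ⟨p⟩ := nM
    refine ⟨hn, M, ext s p, hc, ?_⟩
    rw [realize_inf', realize_allE, realize_uni]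
    refine ⟨fun _ _ => trivial, fun a => ?_⟩
    rw [holdsAt_tr (ext s p) a (fun _ => trivial) φ, seen_ext]
    exact hr

/-- `P(x)` -/
def fP (L : FirstOrder.Language.{0, 0}) : (Ex L).BoundedFormula Empty 1 :=
  FirstOrder.Language.BoundedFormula.rel (L := Ex L) (n := 1) (ExRel.P)
    (fun _ => FirstOrder.Language.Term.var (Sum.inr 0))

/-- `∀ y, E(x,y) → P(y) → E(y,x) → ⊥` -/
def fC (L : FirstOrder.Language.{0, 0}) : (Ex L).BoundedFormula Empty 1 :=
  FirstOrder.Language.BoundedFormula.all (FirstOrder.Language.BoundedFormula.imp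
    (FirstOrder.Language.BoundedFormula.rel (L := Ex L) (n := 2) (ExRel.E) ![vT L 0, vT L 1])
    (FirstOrder.Language.BoundedFormula.imp
      (FirstOrder.Language.BoundedFormula.rel (L := Ex L) (n := 2) (ExRel.P) (fun _ => vT L 1))
      (FirstOrder.Language.BoundedFormula.imp
        (FirstOrder.Language.BoundedFormula.rel (L := Ex L) (n := 2) (ExRel.E) ![vT L 1, vT L 0])
        FirstOrder.Language.BoundedFormula.falsum)))

theorem guarded_fC : Guarded (fC L) :=
  Guarded.all (L := Ex L) (n := 1) ExRel.E ![vT L 0, vT L 1] ⟨1, rfl⟩ ⟨0, 0, rfl⟩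
    (Guarded.imp (Guarded.rel (Nat.succ_pos _) _ _)
      (Guarded.imp (Guarded.rel (Nat.succ_pos _) _ _) Guarded.falsum))

/-- `(∃ x, P(x)) ∧ (∀ x, P(x) → tr φ (x)) ∧ ∀ x, ∃ y, E(x,y) ∧ P(y) ∧ E(y,x)` -/
def point (φ : L.Sentence) : (Ex L).Sentence :=
  (FirstOrder.Language.BoundedFormula.ex (fP L)) ⊓
    ((FirstOrder.Language.BoundedFormula.not (FirstOrder.Language.BoundedFormula.ex
      (FirstOrder.Language.BoundedFormula.not
        (FirstOrder.Language.BoundedFormula.imp (fP L) (tr φ))))) ⊓
    (FirstOrder.Language.BoundedFormula.not (FirstOrder.Language.BoundedFormula.ex (fC L))))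

theorem point_oneWitness (φ : L.Sentence) : OneWitness Guarded (point φ) := by
  have hP : Guarded (fP L) := Guarded.rel (Nat.succ_pos _) _ _
  exact (OneWitness.ex _ hP).inf
    (((OneWitness.ex _ (Guarded.imp (Guarded.imp hP (guarded_tr φ)) Guarded.falsum)).not).inf
      (OneWitness.ex _ guarded_fC).not)

theorem realize_point {M : Type} (s : (Ex L).Structure M) (φ : L.Sentence) :
    @FirstOrder.Language.Sentence.Realize (Ex L) M s (point φ) ↔
      (∃ x, s.RelMap (n := 1) (ExRel.P (L := L)) (fun _ => x)) ∧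
      (∀ x, s.RelMap (n := 1) (ExRel.P (L := L)) (fun _ => x) → HoldsAt s (tr φ) x) ∧
      ∀ x, ∃ y, s.RelMap (n := 2) (ExRel.E (L := L)) ![x, y] ∧
        s.RelMap (n := 1) (ExRel.P (L := L)) (fun _ => y) ∧
        s.RelMap (n := 2) (ExRel.E (L := L)) ![y, x] := by
  have h1 : ∀ a, HoldsAt s (fP L) a ↔ s.RelMap (n := 1) (ExRel.P (L := L)) (fun _ => a) := by
    intro a; exact Iff.rfl
  have h2 : ∀ a, HoldsAt s (FirstOrder.Language.BoundedFormula.not
        (FirstOrder.Language.BoundedFormula.imp (fP L) (tr φ))) a ↔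
        ¬ (HoldsAt s (fP L) a → HoldsAt s (tr φ) a) := by
    intro a; exact Iff.rfl
  have h3 : ∀ a, HoldsAt s (fC L) a ↔ ∀ y, s.RelMap (n := 2) (ExRel.E (L := L)) ![a, y] →
        s.RelMap (n := 1) (ExRel.P (L := L)) (fun _ => y) →
        s.RelMap (n := 2) (ExRel.E (L := L)) ![y, a] → False := by
    intro a
    show Rz s (fC L) (fun _ => a) ↔ _
    unfold fC
    simp only [Rz.all, Rz.rel, Rz.imp, Rz.falsum]
    refine forall_congr' fun y => ?_
    have e1 : (fun i : Fin 2 => @FirstOrder.Language.Term.realize (Ex L) M s _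
        (Sum.elim (fun e => Empty.elim e) (Fin.snoc (fun _ => a : Fin 1 → M) y : Fin 2 → M))
        ((![vT L 0, vT L 1] : Fin 2 → (Ex L).Term (Empty ⊕ Fin 2)) i)) = ![a, y] := by
      funext i
      fin_cases i
      · rfl
      · rfl
    have e2 : (fun i : Fin 2 => @FirstOrder.Language.Term.realize (Ex L) M s _
        (Sum.elim (fun e => Empty.elim e) (Fin.snoc (fun _ => a : Fin 1 → M) y : Fin 2 → M))
        ((![vT L 1, vT L 0] : Fin 2 → (Ex L).Term (Empty ⊕ Fin 2)) i)) = ![y, a] := by
      funext i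
      fin_cases i
      · rfl
      · rfl
    rw [e1, e2]
    exact Iff.rfl
  unfold point
  rw [realize_inf', realize_inf', realize_not', realize_not', realize_ex_iff, realize_ex_iff,
    realize_ex_iff]
  simp only [h1, h2, h3]
  push Not
  simp only [and_true]

theorem spec_atMostOne (φ : L.Sentence) : spec (atMostOne L ⊓ point φ) = spec φ := by
  ext n
  constructor
  · rintro ⟨hn, M, s, hc, hr⟩
    rw [realize_inf', realize_atMostOne, realize_point] at hr
    obtain ⟨hu, ⟨p, hp⟩, h2, h3⟩ := hr
    have hE : ∀ y : M, s.RelMap (n := 2) (ExRel.E (L := L)) ![p, y] := by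
      intro y
      obtain ⟨q, _, hq, hqy⟩ := h3 y
      rwa [hu p q hp hq]
    exact ⟨hn, M, seen s p, hc, (holdsAt_tr s p hE φ).1 (h2 p hp)⟩
  · rintro ⟨hn, M, s, hc, hr⟩
    have nM : Nonempty M := by
      by_contra h
      rw [not_nonempty_iff] at h
      rw [Nat.card_of_isEmpty] at hc
      omega
    obtain ⟨p⟩ := nM
    refine ⟨hn, M, ext s p, hc, ?_⟩
    rw [realize_inf', realize_atMostOne, realize_point]
    refine ⟨?_, ⟨p, rfl⟩, fun a _ => ?_, fun x => ⟨p, trivial, rfl, trivial⟩⟩
    · intro x y hx hy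
      exact hx.trans hy.symm
    · rw [holdsAt_tr (ext s p) a (fun _ => trivial) φ, seen_ext]
      exact hr

end Pool.Agent.H998.AS
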