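import Pool.Agent.H998.AS.Elim2
set_option autoImplicit false
set_option linter.unusedSectionVars false

/-! Normal forms for all spectra. -/

namespace Pool.Agent.H998.AS
open FirstOrder

/-- the sentence `(∃ x, P(x)) ∧ ∀ x ∀ y, P(x) → P(y) → x = y` -/
def exactlyOne (L : FirstOrder.Language.{0, 0}) : (Ex L).Sentence :=
  (FirstOrder.Language.BoundedFormula.ex
    (FirstOrder.Language.BoundedFormula.rel (L := Ex L) (n := 1) (ExRel.P)
      (fun _ => FirstOrder.Language.Term.var (Sum.inr 0)))) ⊓
  (FirstOrder.Language.BoundedFormula.all (FirstOrder.Language.BoundedFormula.all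
    (FirstOrder.Language.BoundedFormula.imp
      (FirstOrder.Language.BoundedFormula.rel (L := Ex L) (n := 2) (ExRel.P)
        (fun _ => FirstOrder.Language.Term.var (Sum.inr 0)))
      (FirstOrder.Language.BoundedFormula.imp
        (FirstOrder.Language.BoundedFormula.rel (L := Ex L) (n := 2) (ExRel.P)
          (fun _ => FirstOrder.Language.Term.var (Sum.inr 1)))
        (FirstOrder.Language.BoundedFormula.equal
          (FirstOrder.Language.Term.var (Sum.inr 0)) (FirstOrder.Language.Term.var (Sum.inr 1)))))))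

variable {L : FirstOrder.Language.{0, 0}} [L.IsRelational]

theorem realize_all_iff {L : FirstOrder.Language.{0, 0}} {M : Type} (s : L.Structure M) (θ : L.BoundedFormula Empty 1) :
    (@FirstOrder.Language.Sentence.Realize L M s θ.all) ↔ ∀ a, HoldsAt s θ a := by
  unfold HoldsAt FirstOrder.Language.Sentence.Realize FirstOrder.Language.Formula.Realize
  rw [FirstOrder.Language.BoundedFormula.realize_all]
  have h1 : ∀ a : M, (Fin.snoc (default : Fin 0 → M) a : Fin 1 → M) = fun _ => a := by
    intro a; funext i
    have hi : i = Fin.last 0 := by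
      apply Fin.ext
      have := i.isLt
      simp only [Fin.val_last]
      omega
    subst hi
    rw [Fin.snoc_last]
  have h2 : (default : Empty → M) = fun e => e.elim := by
    funext e; exact e.elim
  simp only [h1, h2]

theorem spec_congr {L : FirstOrder.Language.{0, 0}} {φ ψ : L.Sentence}
    (h : ∀ (M : Type) (s : L.Structure M), @FirstOrder.Language.Sentence.Realize L M s φ ↔
      @FirstOrder.Language.Sentence.Realize L M s ψ) : spec φ = spec ψ := by
  ext n
  constructor
  · rintro ⟨hn, M, s, hc, hr⟩
    exact ⟨hn, M, s, hc, (h M s).1 hr⟩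
  · rintro ⟨hn, M, s, hc, hr⟩
    exact ⟨hn, M, s, hc, (h M s).2 hr⟩

/-- first normal form -/
theorem nf_conn (φ : L.Sentence) : ∃ θ : (Ex L).BoundedFormula Empty 1, Guarded θ ∧
    ∀ χ : (Ex L).Sentence,
    (∀ (M : Type) [Finite M] [Nonempty M] (s : (Ex L).Structure M),
      (∀ x y, s.RelMap (n := 2) (ExRel.E (L := L)) ![x, y]) →
        @FirstOrder.Language.Sentence.Realize (Ex L) M s χ) →
    (∀ (M : Type) [Finite M] [Nonempty M] (s : (Ex L).Structure M),
      @FirstOrder.Language.Sentence.Realize (Ex L) M s χ →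
        ∀ x y, Relation.EqvGen (fun x y => s.RelMap (n := 2) (ExRel.E (L := L)) ![x, y]) x y) →
    spec (χ ⊓ θ.all) = spec φ := by
  refine ⟨an (eqv L) (tr φ), guarded_an guarded_eqv (guarded_tr φ), fun χ h1 h2 => ?_⟩
  rw [← spec_conn φ χ h1 h2]
  refine spec_congr fun M s => ?_
  rw [realize_inf', realize_inf', realize_all_iff, realize_unq]
  refine and_congr Iff.rfl (forall_congr' fun a => ?_)
  exact rz_an s (eqv L) (tr φ) (fun _ => a)

/-- `¬ fC(x)`: there is `y` with `E(x,y) ∧ P(y) ∧ E(y,x)` -/
def thP (φ : L.Sentence) : (Ex L).BoundedFormula Empty 1 :=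
  an (FirstOrder.Language.BoundedFormula.imp (fP L) (tr φ))
    (FirstOrder.Language.BoundedFormula.imp (fC L) FirstOrder.Language.BoundedFormula.falsum)

theorem guarded_thP (φ : L.Sentence) : Guarded (thP φ) :=
  guarded_an (Guarded.imp (Guarded.rel (Nat.succ_pos _) _ _) (guarded_tr φ))
    (Guarded.imp guarded_fC Guarded.falsum)

theorem realize_exactlyOne_all {M : Type} (s : (Ex L).Structure M) (φ : L.Sentence) :
    @FirstOrder.Language.Sentence.Realize (Ex L) M s (exactlyOne L ⊓ (thP φ).all) ↔
      @FirstOrder.Language.Sentence.Realize (Ex L) M s (atMostOne L ⊓ point φ) := by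
  have e : exactlyOne L = (FirstOrder.Language.BoundedFormula.ex (fP L)) ⊓ atMostOne L := rfl
  have h : ∀ a, HoldsAt s (thP φ) a ↔ ((HoldsAt s (fP L) a → HoldsAt s (tr φ) a) ∧
      ¬ HoldsAt s (fC L) a) := by
    intro a
    exact rz_an s _ _ (fun _ => a)
  have h' : ∀ a, HoldsAt s (FirstOrder.Language.BoundedFormula.not
        (FirstOrder.Language.BoundedFormula.imp (fP L) (tr φ))) a ↔
        ¬ (HoldsAt s (fP L) a → HoldsAt s (tr φ) a) := by
    intro a; exact Iff.rfl
  unfold point
  rw [realize_inf', e, realize_inf', realize_inf', realize_inf', realize_inf', realize_all_iff,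
    realize_not', realize_not', realize_ex_iff, realize_ex_iff, realize_ex_iff]
  simp only [h, h', not_exists, not_not, forall_and]
  tauto

/-- second normal form -/
theorem nf_point (φ : L.Sentence) : ∃ θ : (Ex L).BoundedFormula Empty 1, Guarded θ ∧
    spec (exactlyOne L ⊓ θ.all) = spec φ := by
  refine ⟨thP φ, guarded_thP φ, ?_⟩
  rw [← spec_atMostOne φ]
  exact spec_congr fun M s => realize_exactlyOne_all s φ

theorem allE_total {M : Type} (s : (Ex L).Structure M)
    (h : ∀ x y, s.RelMap (n := 2) (ExRel.E (L := L)) ![x, y]) :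
    @FirstOrder.Language.Sentence.Realize (Ex L) M s (allE L) := (realize_allE s).2 h

theorem allE_conn {M : Type} (s : (Ex L).Structure M)
    (h : @FirstOrder.Language.Sentence.Realize (Ex L) M s (allE L)) (x y : M) :
    Relation.EqvGen (fun x y => s.RelMap (n := 2) (ExRel.E (L := L)) ![x, y]) x y :=
  Relation.EqvGen.rel _ _ ((realize_allE s).1 h x y)

end Pool.Agent.H998.AS
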