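import Pool.Agent.H998.AS.Defs
set_option autoImplicit false

namespace Pool.Agent.H998.AS
open FirstOrder

set_option linter.unusedSectionVars false
variable {L : FirstOrder.Language.{0, 0}} [L.IsRelational]

theorem realize_ex_iff {M : Type} (s : L.Structure M) (θ : L.BoundedFormula Empty 1) :
    (@FirstOrder.Language.Sentence.Realize L M s θ.ex) ↔ ∃ a, HoldsAt s θ a := by
  unfold HoldsAt FirstOrder.Language.Sentence.Realize FirstOrder.Language.Formula.Realize
  rw [FirstOrder.Language.BoundedFormula.realize_ex]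
  have h1 : ∀ a : M, (Fin.snoc (default : Fin 0 → M) a : Fin 1 → M) = fun _ => a := by
    intro a; funext i
    have hi : i = Fin.last 0 := by
      apply Fin.ext
      have := i.isLt
      simp only [Fin.val_last]
      omega
    subst hi
    rw [Fin.snoc_last]
  have h2 : (default : Empty → M) = fun e => e.elim := by
    funext e; exact e.elim
  simp only [h1, h2]

theorem types_of {φ : L.Sentence} (h : OneWitness IsLocal φ) :
    ∃ (k : ℕ) (θ : Fin k → L.BoundedFormula Empty 1), (∀ i, IsLocal (θ i)) ∧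
      ∃ P : Set (Fin k) → Prop, ∀ (M : Type) (s : L.Structure M),
        (@FirstOrder.Language.Sentence.Realize L M s φ ↔ P {i | ∃ a, HoldsAt s (θ i) a}) := by
  induction h with
  | ex θ h =>
    refine ⟨1, fun _ => θ, fun _ => h, fun s => (0 : Fin 1) ∈ s, ?_⟩
    intro M s
    rw [realize_ex_iff]
    rfl
  | bot =>
    refine ⟨0, fun i => i.elim0, fun i => i.elim0, fun _ => False, ?_⟩
    intro M s
    rfl
  | @imp φ ψ h₁ h₂ ih₁ ih₂ =>
    obtain ⟨k₁, θ₁, hl₁, P₁, hP₁⟩ := ih₁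
    obtain ⟨k₂, θ₂, hl₂, P₂, hP₂⟩ := ih₂
    refine ⟨k₁ + k₂, Fin.append θ₁ θ₂, ?_,
      fun s => P₁ {i | Fin.castAdd k₂ i ∈ s} → P₂ {i | Fin.natAdd k₁ i ∈ s}, ?_⟩
    · intro i
      refine Fin.addCases (fun i => ?_) (fun i => ?_) i
      · rw [Fin.append_left]; exact hl₁ i
      · rw [Fin.append_right]; exact hl₂ i
    · intro M s
      have e1 : (@FirstOrder.Language.Sentence.Realize L M s (FirstOrder.Language.BoundedFormula.imp φ ψ)) ↔
          (@FirstOrder.Language.Sentence.Realize L M s φ → @FirstOrder.Language.Sentence.Realize L M s ψ) := by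
        unfold FirstOrder.Language.Sentence.Realize FirstOrder.Language.Formula.Realize
        rw [FirstOrder.Language.BoundedFormula.realize_imp]
      rw [e1, hP₁ M s, hP₂ M s]
      simp only [Set.mem_ofPred_eq, Fin.append_left, Fin.append_right]

theorem union_types {k : ℕ} (θ : Fin k → L.BoundedFormula Empty 1) (hl : ∀ i, IsLocal (θ i))
    {M N : Type} [Finite M] [Finite N] (sM : L.Structure M) (sN : L.Structure N) :
    {i | ∃ a, HoldsAt (sumStr sM sN) (θ i) a} =
      {i | ∃ a, HoldsAt sM (θ i) a} ∪ {i | ∃ a, HoldsAt sN (θ i) a} := by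
  ext i
  have h := hl i M N sM sN
  simp only [Set.mem_ofPred_eq, Set.mem_union, Sum.exists]
  constructor
  · rintro (⟨a, ha⟩ | ⟨b, hb⟩)
    · exact Or.inl ⟨a, (h.1 a).1 ha⟩
    · exact Or.inr ⟨b, (h.2 b).1 hb⟩
  · rintro (⟨a, ha⟩ | ⟨b, hb⟩)
    · exact Or.inl ⟨a, (h.1 a).2 ha⟩
    · exact Or.inr ⟨b, (h.2 b).2 hb⟩

/-- The spectrum of a one-witness sentence is a finite union of additively closed sets. -/
theorem spec_union {φ : L.Sentence} (h : OneWitness IsLocal φ) :
    ∃ (k : ℕ) (A : Fin k → Set ℕ), (∀ i, AddClosed (A i)) ∧ (∀ i, ∀ n ∈ A i, 0 < n) ∧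
      spec φ = ⋃ i, A i := by
  classical
  obtain ⟨k, θ, hl, P, hP⟩ := types_of h
  obtain ⟨K, ⟨e⟩⟩ := Finite.exists_equiv_fin (Set (Fin k))
  refine ⟨K, fun i => {n | P (e.symm i) ∧ 0 < n ∧ ∃ (M : Type) (s : L.Structure M),
    Nat.card M = n ∧ {j | ∃ a, HoldsAt s (θ j) a} = e.symm i}, ?_, ?_, ?_⟩
  · rintro i m ⟨hPi, hm, M, sM, hcM, hM⟩ n ⟨_, hn, N, sN, hcN, hN⟩
    have fM : Finite M := Nat.finite_of_card_ne_zero (by omega)
    have fN : Finite N := Nat.finite_of_card_ne_zero (by omega)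
    refine ⟨hPi, by omega, M ⊕ N, sumStr sM sN, ?_, ?_⟩
    · rw [Nat.card_sum, hcM, hcN]
    · rw [union_types θ hl, hM, hN, Set.union_self]
  · rintro i n ⟨_, hn, _⟩
    exact hn
  · ext n
    simp only [spec, Set.mem_ofPred_eq, Set.mem_iUnion]
    constructor
    · rintro ⟨hn, M, s, hc, hr⟩
      refine ⟨e {j | ∃ a, HoldsAt s (θ j) a}, ?_, hn, M, s, hc, ?_⟩
      · rw [Equiv.symm_apply_apply]
        exact (hP M s).1 hr
      · rw [Equiv.symm_apply_apply]
    · rintro ⟨i, hPi, hn, M, s, hc, hs⟩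
      refine ⟨hn, M, s, hc, (hP M s).2 ?_⟩
      rw [hs]; exact hPi

end Pool.Agent.H998.AS
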